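import Pool.Agent.P.MP_cb22e8_co.Tail

/-!
Averaging over random subsamples.
-/

namespace Pool.Agent.P.MP_cb22e8_co

open Finset

/-- weighted average -/
def Ex {Ω : Type*} [Fintype Ω] (w : Ω → ℝ) : (Ω → ℝ) →ₗ[ℝ] ℝ where
  toFun f := ∑ ω, w ω * f ω
  map_add' f g := by simp [mul_add, sum_add_distrib]
  map_smul' c f := by simp [mul_sum, mul_left_comm]

theorem Ex_apply {Ω : Type*} [Fintype Ω] (w f : Ω → ℝ) : Ex w f = ∑ ω, w ω * f ω := rfl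

theorem Ex_mono {Ω : Type*} [Fintype Ω] {w f g : Ω → ℝ} (hw : ∀ ω, 0 ≤ w ω)
    (h : ∀ ω, f ω ≤ g ω) : Ex w f ≤ Ex w g :=
  sum_le_sum fun ω _ => mul_le_mul_of_nonneg_left (h ω) (hw ω)

theorem Ex_add {Ω : Type*} [Fintype Ω] (w f g : Ω → ℝ) :
    Ex w (fun ω => f ω + g ω) = Ex w f + Ex w g := map_add (Ex w) f g

theorem Ex_sub {Ω : Type*} [Fintype Ω] (w f g : Ω → ℝ) :
    Ex w (fun ω => f ω - g ω) = Ex w f - Ex w g := map_sub (Ex w) f g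

theorem Ex_mul {Ω : Type*} [Fintype Ω] (w f : Ω → ℝ) (c : ℝ) :
    Ex w (fun ω => c * f ω) = c * Ex w f := map_smul (Ex w) c f

theorem Ex_sum {Ω ι : Type*} [Fintype Ω] (w : Ω → ℝ) (s : Finset ι) (f : ι → Ω → ℝ) :
    Ex w (fun ω => ∑ i ∈ s, f i ω) = ∑ i ∈ s, Ex w (f i) := by
  rw [← map_sum]
  congr 1
  funext ω
  simp

/-- product weight -/
def pw {Ω Ω' : Type*} (w : Ω → ℝ) (w' : Ω' → ℝ) : Ω × Ω' → ℝ := fun ω => w ω.1 * w' ω.2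

theorem Ex_prod {Ω Ω' : Type*} [Fintype Ω] [Fintype Ω'] (w f : Ω → ℝ) (w' g : Ω' → ℝ) :
    Ex (pw w w') (fun ω => f ω.1 * g ω.2) = Ex w f * Ex w' g := by
  simp only [Ex_apply, pw, Fintype.sum_prod_type, sum_mul_sum]
  refine sum_congr rfl fun a _ => sum_congr rfl fun b _ => by ring

theorem pw_nonneg {Ω Ω' : Type*} {w : Ω → ℝ} {w' : Ω' → ℝ} (h : ∀ ω, 0 ≤ w ω)
    (h' : ∀ ω, 0 ≤ w' ω) (ω : Ω × Ω') : 0 ≤ pw w w' ω := mul_nonneg (h _) (h' _)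

open Classical in
/-- real indicator of a proposition -/
noncomputable def ind (P : Prop) : ℝ := if P then 1 else 0

theorem ind_nonneg (P : Prop) : 0 ≤ ind P := by unfold ind; split_ifs <;> norm_num

theorem ind_and (P Q : Prop) : ind (P ∧ Q) = ind P * ind Q := by
  unfold ind
  by_cases hP : P <;> by_cases hQ : Q <;> simp [hP, hQ]

theorem sum_ind {α : Type*} (s : Finset α) (P : α → Prop) [DecidablePred P] :
    ∑ a ∈ s, ind (P a) = (s.filter P).card := by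
  rw [card_filter]
  push_cast
  refine sum_congr rfl fun a _ => ?_
  unfold ind
  congr

theorem bonferroni_ind {α : Type*} [DecidableEq α] (T : Finset α) (P : α → Prop) :
    ∑ a ∈ T, ind (P a) - ∑ a ∈ T, ∑ b ∈ T.erase a, ind (P a) * ind (P b) ≤ ind (∃ a ∈ T, P a) := by
  classical
  have h1 : ∀ a ∈ T, ∑ b ∈ T.erase a, ind (P a) * ind (P b) =
      ind (P a) * ((T.filter P).card - 1) := by
    intro a ha
    rw [← mul_sum, ← sum_ind, ← add_sum_erase T _ ha]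
    by_cases hP : P a <;> simp [ind, hP]
  rw [sum_congr rfl h1, ← sum_mul, sum_ind]
  by_cases h : ∃ a ∈ T, P a
  · rw [ind, if_pos h]
    nlinarith [sq_nonneg (((T.filter P).card : ℝ) - 1)]
  · rw [ind, if_neg h, filter_false_of_mem (by simpa using h)]
    simp

theorem Ex_exists_ge {Ω α : Type*} [Fintype Ω] [DecidableEq α] {w : Ω → ℝ} (hw : ∀ ω, 0 ≤ w ω)
    (T : Finset α) (P : α → Ω → Prop) (u κ : ℝ)
    (h1 : ∀ a ∈ T, Ex w (fun ω => ind (P a ω)) = u)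
    (h2 : ∀ a ∈ T, ∑ b ∈ T.erase a, Ex w (fun ω => ind (P a ω) * ind (P b ω)) ≤ u * κ) :
    u * T.card * (1 - κ) ≤ Ex w (fun ω => ind (∃ a ∈ T, P a ω)) := by
  refine le_trans ?_ (Ex_mono hw fun ω => bonferroni_ind T fun a => P a ω)
  rw [Ex_sub, Ex_sum, Ex_sum, sum_congr rfl h1]
  simp only [Ex_sum]
  have := sum_le_card_nsmul _ _ _ h2
  simp only [sum_const, nsmul_eq_mul] at this ⊢
  linarith

variable {G : Type*} [Fintype G] [DecidableEq G]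

/-- Bernoulli weights on subsets -/
def bw (ρ : ℝ) (S : Finset G) : ℝ := ρ ^ S.card * (1 - ρ) ^ (Fintype.card G - S.card)

omit [DecidableEq G] in
theorem bw_nonneg {ρ : ℝ} (h0 : 0 ≤ ρ) (h1 : ρ ≤ 1) (S : Finset G) : 0 ≤ bw ρ S :=
  mul_nonneg (pow_nonneg h0 _) (pow_nonneg (by linarith) _)

theorem Ex_subset (ρ : ℝ) (F : Finset G) :
    Ex (bw ρ) (fun S => ind (F ⊆ S)) = ρ ^ F.card := by
  have h := prod_add (fun _ : G => ρ) (fun i => if i ∈ F then 0 else 1 - ρ) univ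
  have h1 : ∏ i : G, (ρ + if i ∈ F then 0 else 1 - ρ) = ρ ^ F.card := by
    rw [← prod_const, ← prod_subset (subset_univ F)]
    · exact prod_congr rfl fun i hi => by simp [hi]
    · intro i _ hi; simp [hi]
  rw [← h1, h, Ex_apply, powerset_univ]
  refine sum_congr rfl fun S _ => ?_
  by_cases hF : F ⊆ S
  · have h2 : ∏ i ∈ univ \ S, (if i ∈ F then 0 else 1 - ρ) = ∏ _i ∈ univ \ S, (1 - ρ) :=
      prod_congr rfl fun i hi => if_neg fun h => (mem_sdiff.mp hi).2 (hF h)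
    rw [ind, if_pos hF, mul_one, bw, h2, prod_const, prod_const,
      card_sdiff_of_subset (subset_univ S), card_univ]
  · rw [ind, if_neg hF, mul_zero]
    obtain ⟨i, hi, hiS⟩ := not_subset.mp hF
    rw [prod_eq_zero (s := univ \ S) (i := i) (by simp [hiS]) (by simp [hi]), mul_zero]

theorem Ex_one (ρ : ℝ) : Ex (bw ρ) (fun _ : Finset G => (1 : ℝ)) = 1 := by
  simpa [ind] using Ex_subset ρ (∅ : Finset G)

theorem Ex_mem (ρ : ℝ) (t : G) : Ex (bw ρ) (fun S => ind (t ∈ S)) = ρ := by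
  simpa using Ex_subset ρ {t}

theorem Ex_mem_mem (ρ : ℝ) (h0 : 0 ≤ ρ) (t t' : G) :
    Ex (bw ρ) (fun S => ind (t ∈ S) * ind (t' ∈ S)) ≤ ρ * (ρ + ind (t' = t)) := by
  have h := Ex_subset ρ {t, t'}
  simp only [insert_subset_iff, singleton_subset_iff, ind_and] at h
  rw [h]
  by_cases htt : t' = t
  · subst htt
    simp only [ind, mem_singleton, insert_eq_of_mem, card_singleton, if_true]
    nlinarith
  · rw [card_pair (Ne.symm htt), ind, if_neg htt]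
    nlinarith

omit [DecidableEq G] in
theorem Ex_mem_mem_nonneg (ρ : ℝ) (h0 : 0 ≤ ρ) (h1 : ρ ≤ 1) (t t' : G) :
    0 ≤ Ex (bw ρ) (fun S => ind (t ∈ S) * ind (t' ∈ S)) :=
  sum_nonneg fun S _ => mul_nonneg (bw_nonneg h0 h1 S) (mul_nonneg (ind_nonneg _) (ind_nonneg _))

theorem Ex_card (ρ : ℝ) (T : Finset G) :
    Ex (bw ρ) (fun S => ((T ∩ S).card : ℝ)) = ρ * T.card := by
  have : (fun S : Finset G => ((T ∩ S).card : ℝ)) = fun S => ∑ t ∈ T, ind (t ∈ S) := by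
    funext S
    rw [sum_ind, filter_mem_eq_inter]
  rw [this, Ex_sum]
  simp [Ex_mem, mul_comm]

theorem Ex_card_sq (ρ : ℝ) (h0 : 0 ≤ ρ) (T : Finset G) :
    Ex (bw ρ) (fun S => ((T ∩ S).card : ℝ) ^ 2) ≤ ρ * T.card * (ρ * T.card + 1) := by
  have : (fun S : Finset G => ((T ∩ S).card : ℝ) ^ 2) =
      fun S => ∑ t ∈ T, ∑ t' ∈ T, ind (t ∈ S) * ind (t' ∈ S) := by
    funext S
    rw [← sum_mul_sum, sum_ind, filter_mem_eq_inter, sq]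
  rw [this, Ex_sum]
  have h1 : ∀ t ∈ T, Ex (bw ρ) (fun S => ∑ t' ∈ T, ind (t ∈ S) * ind (t' ∈ S)) ≤
      ρ * (ρ * T.card + 1) := by
    intro t ht
    rw [Ex_sum]
    refine le_trans (sum_le_sum fun t' _ => Ex_mem_mem ρ h0 t t') (le_of_eq ?_)
    rw [← mul_sum, sum_add_distrib, sum_ind, filter_eq', if_pos ht]
    simp [mul_comm]
  have := sum_le_card_nsmul _ _ _ h1
  rw [nsmul_eq_mul] at this
  linarith

theorem Ex_pair (ρ : ℝ) (t : G × G) :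
    Ex (pw (bw ρ) (bw ρ)) (fun ω => ind (t.1 ∈ ω.1 ∧ t.2 ∈ ω.2)) = ρ ^ 2 := by
  simp only [ind_and]
  rw [Ex_prod (bw ρ) (fun S => ind (t.1 ∈ S)) (bw ρ) (fun S => ind (t.2 ∈ S)), Ex_mem, Ex_mem, sq]

theorem pair_lemma {ρ D0 D1 : ℝ} (h0 : 0 ≤ ρ) (h1 : ρ ≤ 1) (T : Finset (G × G))
    (hD0 : (T.card : ℝ) ≤ D0)
    (hD1 : ∀ a ∈ T, ((T.filter fun b => b.1 = a.1).card : ℝ) ≤ D1)
    (hD2 : ∀ a ∈ T, ((T.filter fun b => b.2 = a.2).card : ℝ) ≤ D1) :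
    ρ ^ 2 * T.card * (1 - (ρ ^ 2 * D0 + 2 * ρ * D1)) ≤
      Ex (pw (bw ρ) (bw ρ)) (fun ω => ind (∃ a ∈ T, a.1 ∈ ω.1 ∧ a.2 ∈ ω.2)) := by
  refine Ex_exists_ge (pw_nonneg (bw_nonneg h0 h1) (bw_nonneg h0 h1)) T
    (fun a ω => a.1 ∈ ω.1 ∧ a.2 ∈ ω.2) _ _ (fun a _ => Ex_pair ρ a) fun a ha => ?_
  have k1 : ∀ b ∈ T.erase a, Ex (pw (bw ρ) (bw ρ))
      (fun ω => ind (a.1 ∈ ω.1 ∧ a.2 ∈ ω.2) * ind (b.1 ∈ ω.1 ∧ b.2 ∈ ω.2)) ≤
      ρ ^ 2 * (ρ ^ 2 + ρ * ind (b.1 = a.1) + ρ * ind (b.2 = a.2)) := by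
    intro b hb
    have e : (fun ω : Finset G × Finset G =>
        ind (a.1 ∈ ω.1 ∧ a.2 ∈ ω.2) * ind (b.1 ∈ ω.1 ∧ b.2 ∈ ω.2)) =
        fun ω => (ind (a.1 ∈ ω.1) * ind (b.1 ∈ ω.1)) * (ind (a.2 ∈ ω.2) * ind (b.2 ∈ ω.2)) := by
      funext ω; simp only [ind_and]; ring
    rw [e, Ex_prod (bw ρ) (fun S => ind (a.1 ∈ S) * ind (b.1 ∈ S)) (bw ρ)
      (fun S => ind (a.2 ∈ S) * ind (b.2 ∈ S))]
    have z : ind (b.1 = a.1) * ind (b.2 = a.2) = 0 := by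
      rw [← ind_and, ind, if_neg]
      exact fun h => (mem_erase.mp hb).1 (Prod.ext h.1 h.2)
    calc _ ≤ (ρ * (ρ + ind (b.1 = a.1))) * (ρ * (ρ + ind (b.2 = a.2))) :=
          mul_le_mul (Ex_mem_mem ρ h0 _ _) (Ex_mem_mem ρ h0 _ _) (Ex_mem_mem_nonneg ρ h0 h1 _ _)
            (mul_nonneg h0 (add_nonneg h0 (ind_nonneg _)))
      _ = _ := by linear_combination ρ ^ 2 * z
  refine (sum_le_sum k1).trans ?_
  refine le_trans (sum_le_sum_of_subset_of_nonneg (erase_subset a T) fun b _ _ => ?_) ?_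
  · have := ind_nonneg (b.1 = a.1)
    have := ind_nonneg (b.2 = a.2)
    positivity
  rw [← mul_sum, sum_add_distrib, sum_add_distrib, ← mul_sum, ← mul_sum, sum_ind, sum_ind,
    sum_const, nsmul_eq_mul]
  have := hD1 a ha
  have := hD2 a ha
  gcongr ρ ^ 2 * ?_
  nlinarith [sq_nonneg ρ]

theorem Ex_triple (ρ : ℝ) (t : G × G × G) :
    Ex (pw (bw ρ) (pw (bw ρ) (bw ρ)))
      (fun ω => ind (t.1 ∈ ω.1 ∧ t.2.1 ∈ ω.2.1 ∧ t.2.2 ∈ ω.2.2)) = ρ ^ 3 := by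
  have e : (fun ω : Finset G × Finset G × Finset G =>
      ind (t.1 ∈ ω.1 ∧ t.2.1 ∈ ω.2.1 ∧ t.2.2 ∈ ω.2.2)) =
      fun ω => ind (t.1 ∈ ω.1) * ind (t.2.1 ∈ ω.2.1 ∧ t.2.2 ∈ ω.2.2) := by
    funext ω; rw [ind_and]
  rw [e, Ex_prod (bw ρ) (fun S => ind (t.1 ∈ S)) (pw (bw ρ) (bw ρ))
    (fun ω => ind (t.2.1 ∈ ω.1 ∧ t.2.2 ∈ ω.2)), Ex_mem, Ex_pair]
  ring

theorem triple_lemma {ρ D0 D1 D2 : ℝ} (h0 : 0 ≤ ρ) (h1 : ρ ≤ 1) (T : Finset (G × G × G))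
    (hD0 : (T.card : ℝ) ≤ D0)
    (hD1 : ∀ a ∈ T, ((T.filter fun b => b.1 = a.1).card : ℝ) ≤ D1)
    (hD2 : ∀ a ∈ T, ((T.filter fun b => b.2.1 = a.2.1).card : ℝ) ≤ D1)
    (hD3 : ∀ a ∈ T, ((T.filter fun b => b.2.2 = a.2.2).card : ℝ) ≤ D1)
    (hD12 : ∀ a ∈ T, ((T.filter fun b => b.1 = a.1 ∧ b.2.1 = a.2.1).card : ℝ) ≤ D2)
    (hD13 : ∀ a ∈ T, ((T.filter fun b => b.1 = a.1 ∧ b.2.2 = a.2.2).card : ℝ) ≤ D2)
    (hD23 : ∀ a ∈ T, ((T.filter fun b => b.2.1 = a.2.1 ∧ b.2.2 = a.2.2).card : ℝ) ≤ D2) :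
    ρ ^ 3 * T.card * (1 - (ρ ^ 3 * D0 + 3 * ρ ^ 2 * D1 + 3 * ρ * D2)) ≤
      Ex (pw (bw ρ) (pw (bw ρ) (bw ρ)))
        (fun ω => ind (∃ a ∈ T, a.1 ∈ ω.1 ∧ a.2.1 ∈ ω.2.1 ∧ a.2.2 ∈ ω.2.2)) := by
  have hb := bw_nonneg (G := G) h0 h1
  refine Ex_exists_ge (pw_nonneg hb (pw_nonneg hb hb)) T
    (fun a ω => a.1 ∈ ω.1 ∧ a.2.1 ∈ ω.2.1 ∧ a.2.2 ∈ ω.2.2) _ _ (fun a _ => Ex_triple ρ a)
    fun a ha => ?_
  have k1 : ∀ b ∈ T.erase a, Ex (pw (bw ρ) (pw (bw ρ) (bw ρ)))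
      (fun ω => ind (a.1 ∈ ω.1 ∧ a.2.1 ∈ ω.2.1 ∧ a.2.2 ∈ ω.2.2) *
        ind (b.1 ∈ ω.1 ∧ b.2.1 ∈ ω.2.1 ∧ b.2.2 ∈ ω.2.2)) ≤
      ρ ^ 3 * (ρ ^ 3 + ρ ^ 2 * ind (b.1 = a.1) + ρ ^ 2 * ind (b.2.1 = a.2.1) +
        ρ ^ 2 * ind (b.2.2 = a.2.2) + ρ * ind (b.1 = a.1 ∧ b.2.1 = a.2.1) +
        ρ * ind (b.1 = a.1 ∧ b.2.2 = a.2.2) + ρ * ind (b.2.1 = a.2.1 ∧ b.2.2 = a.2.2)) := by
    intro b hb
    have e : (fun ω : Finset G × Finset G × Finset G =>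
        ind (a.1 ∈ ω.1 ∧ a.2.1 ∈ ω.2.1 ∧ a.2.2 ∈ ω.2.2) *
        ind (b.1 ∈ ω.1 ∧ b.2.1 ∈ ω.2.1 ∧ b.2.2 ∈ ω.2.2)) =
        fun ω => (ind (a.1 ∈ ω.1) * ind (b.1 ∈ ω.1)) *
          ((ind (a.2.1 ∈ ω.2.1) * ind (b.2.1 ∈ ω.2.1)) *
            (ind (a.2.2 ∈ ω.2.2) * ind (b.2.2 ∈ ω.2.2))) := by
      funext ω; simp only [ind_and]; ring
    rw [e, Ex_prod (bw ρ) (fun S => ind (a.1 ∈ S) * ind (b.1 ∈ S)) (pw (bw ρ) (bw ρ))
      (fun ω => (ind (a.2.1 ∈ ω.1) * ind (b.2.1 ∈ ω.1)) * (ind (a.2.2 ∈ ω.2) * ind (b.2.2 ∈ ω.2))),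
      Ex_prod (bw ρ) (fun S => ind (a.2.1 ∈ S) * ind (b.2.1 ∈ S)) (bw ρ)
      (fun S => ind (a.2.2 ∈ S) * ind (b.2.2 ∈ S))]
    have z : ind (b.1 = a.1) * ind (b.2.1 = a.2.1) * ind (b.2.2 = a.2.2) = 0 := by
      rw [← ind_and, ← ind_and, ind, if_neg]
      exact fun h => (mem_erase.mp hb).1 (Prod.ext h.1.1 (Prod.ext h.1.2 h.2))
    have n1 := ind_nonneg (b.1 = a.1)
    have n2 := ind_nonneg (b.2.1 = a.2.1)
    calc _ ≤ (ρ * (ρ + ind (b.1 = a.1))) *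
          ((ρ * (ρ + ind (b.2.1 = a.2.1))) * (ρ * (ρ + ind (b.2.2 = a.2.2)))) :=
          mul_le_mul (Ex_mem_mem ρ h0 _ _)
            (mul_le_mul (Ex_mem_mem ρ h0 _ _) (Ex_mem_mem ρ h0 _ _)
              (Ex_mem_mem_nonneg ρ h0 h1 _ _) (by positivity))
            (mul_nonneg (Ex_mem_mem_nonneg ρ h0 h1 _ _) (Ex_mem_mem_nonneg ρ h0 h1 _ _))
            (by positivity)
      _ = _ := by
          simp only [ind_and]
          linear_combination ρ ^ 3 * z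
  refine (sum_le_sum k1).trans ?_
  refine le_trans (sum_le_sum_of_subset_of_nonneg (erase_subset a T) fun b _ _ => ?_) ?_
  · have := ind_nonneg (b.1 = a.1)
    have := ind_nonneg (b.2.1 = a.2.1)
    have := ind_nonneg (b.2.2 = a.2.2)
    simp only [ind_and]
    positivity
  simp only [← mul_sum, sum_add_distrib, sum_ind, sum_const, nsmul_eq_mul]
  have a1 := mul_le_mul_of_nonneg_left (hD1 a ha) (sq_nonneg ρ)
  have a2 := mul_le_mul_of_nonneg_left (hD2 a ha) (sq_nonneg ρ)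
  have a3 := mul_le_mul_of_nonneg_left (hD3 a ha) (sq_nonneg ρ)
  have a4 := mul_le_mul_of_nonneg_left (hD12 a ha) h0
  have a5 := mul_le_mul_of_nonneg_left (hD13 a ha) h0
  have a6 := mul_le_mul_of_nonneg_left (hD23 a ha) h0
  have a0 := mul_le_mul_of_nonneg_left hD0 (pow_nonneg h0 3)
  gcongr ρ ^ 3 * ?_
  linarith

end Pool.Agent.P.MP_cb22e8_co
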