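import Pool.Agent.P.MP_cb22e8_co.Sample

/-!
Basic deterministic lemmas.
-/

namespace Pool.Agent.P.MP_cb22e8_co

open Finset

theorem card_biUnion_ge {ι α : Type*} [DecidableEq ι] [DecidableEq α] (F : ι → Finset α)
    {u R : ℝ} (hR : 0 ≤ R) (I : Finset ι) (hu : ∀ i ∈ I, u ≤ (F i).card)
    (hij : ∀ i ∈ I, ∀ j ∈ I, i ≠ j → ((F i ∩ F j).card : ℝ) ≤ R) :
    I.card * u - I.card ^ 2 * R ≤ (I.biUnion F).card := by
  induction I using Finset.induction_on with
  | empty => simp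
  | insert i I hi ih =>
    have h1 := ih (fun j hj => hu j (mem_insert_of_mem hj))
      (fun j hj l hl => hij j (mem_insert_of_mem hj) l (mem_insert_of_mem hl))
    have h2 : ((F i ∪ I.biUnion F).card : ℝ) + (F i ∩ I.biUnion F).card =
        (F i).card + (I.biUnion F).card := by exact_mod_cast card_union_add_card_inter _ _
    have h3 : ((F i ∩ I.biUnion F).card : ℝ) ≤ I.card * R := by
      rw [inter_biUnion]
      have k1 : ((I.biUnion fun j => F i ∩ F j).card : ℝ) ≤ ∑ j ∈ I, ((F i ∩ F j).card : ℝ) := by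
        exact_mod_cast card_biUnion_le
      refine k1.trans ?_
      rw [← nsmul_eq_mul]
      exact sum_le_card_nsmul _ _ _ fun j hj => hij i (mem_insert_self _ _) j
        (mem_insert_of_mem hj) (fun h => hi (h ▸ hj))
    have h4 := hu i (mem_insert_self _ _)
    rw [biUnion_insert, card_insert_of_notMem hi]
    push_cast
    have : (0 : ℝ) ≤ I.card * R := by positivity
    nlinarith

theorem few_heavy {ι α : Type*} [DecidableEq ι] [DecidableEq α] (F : ι → Finset α) (T : Finset α)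
    {Θ R : ℝ} (hR : 0 ≤ R) (Y : Finset ι) (hT : ∀ i, F i ⊆ T) (hY : ∀ i ∈ Y, Θ ≤ (F i).card)
    (hij : ∀ i j, i ≠ j → ((F i ∩ F j).card : ℝ) ≤ R) (q : ℕ)
    (hq : (T.card : ℝ) < q * Θ - q ^ 2 * R) : Y.card ≤ q := by
  by_contra h
  obtain ⟨I, hI, hIq⟩ := exists_subset_card_eq (not_le.mp h).le
  have h1 := card_biUnion_ge F hR I (fun i hi => hY i (hI hi)) (fun i _ j _ => hij i j)
  have h2 : ((I.biUnion F).card : ℝ) ≤ T.card := by
    exact_mod_cast card_le_card (biUnion_subset.mpr fun i _ => hT i)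
  rw [hIq] at h1
  linarith

theorem sum_rank {α β : Type*} [DecidableEq α] [LinearOrder β] (f : α → β)
    (hf : Function.Injective f) (g : ℕ → ℝ) (B : Finset α) :
    ∑ t ∈ B, g (B.filter fun s => f s < f t).card = ∑ i ∈ range B.card, g i := by
  induction B using Finset.induction_on_max_value f with
  | empty => simp
  | insert a B ha hmax ih =>
    rw [sum_insert ha, card_insert_of_notMem ha, sum_range_succ, add_comm, ← ih]
    congr 1
    · refine sum_congr rfl fun t ht => ?_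
      rw [filter_insert, if_neg (not_lt.mpr (hmax t ht))]
    · rw [filter_insert, if_neg (lt_irrefl _), filter_true_of_mem]
      exact fun s hs => lt_of_le_of_ne (hmax s hs) fun h => ha (hf h ▸ hs)

/-- partial sums bounding the number of good pairs -/
noncomputable def s2 (r : ℕ) : ℝ := ∑ i ∈ range r, ((i - 1 : ℕ) : ℝ)

/-- partial sums bounding the number of good triples -/
noncomputable def s3 (r : ℕ) : ℝ := ∑ i ∈ range r, (((i - 1) * (i - 1) - (i - 1) : ℕ) : ℝ)

theorem s2_eq (r : ℕ) : 2 * s2 (r + 1) = r * (r - 1) := by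
  induction r with
  | zero => simp [s2]
  | succ r ih =>
    rw [s2, sum_range_succ, ← s2, mul_add, ih]
    push_cast
    ring

theorem s2_ge (r : ℕ) : (r : ℝ) * (r - 1) ≤ 2 * s2 r + 2 * ((r - 1 : ℕ) : ℝ) := by
  rcases r with _ | r
  · simp [s2]
  · rw [s2_eq]
    push_cast
    nlinarith

theorem s3_eq (r : ℕ) : 3 * s3 (r + 1) = r * (r - 1) * (r - 2) := by
  induction r with
  | zero => simp [s3]
  | succ r ih =>
    rw [s3, sum_range_succ, ← s3, mul_add, ih]
    rw [Nat.add_sub_cancel, Nat.cast_sub (Nat.le_mul_self r)]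
    push_cast
    ring

theorem s3_nonneg (r : ℕ) : 0 ≤ s3 r := sum_nonneg fun _ _ => Nat.cast_nonneg _

theorem pointwise_bound {r1 r2 j : ℕ} {Θ : ℝ} (hr : ((r1 + r2 : ℕ) : ℝ) ≤ Θ) (hj : 1 ≤ j)
    (hΘ : 100 * Θ ^ 2 ≤ ((j : ℝ) - 1) * (j - 2) * (j - 3)) :
    4 * ((r1 : ℝ) * r2) ≤ 30 * ((r1 + r2 - 1 : ℕ) : ℝ) + 3 / 100 * s3 (min (r1 + r2) j) := by
  have h0 := s3_nonneg (min (r1 + r2) j)
  have h1 : 4 * ((r1 : ℝ) * r2) ≤ ((r1 + r2 : ℕ) : ℝ) ^ 2 := by
    push_cast; nlinarith [sq_nonneg ((r1 : ℝ) - r2)]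
  by_cases h2 : r1 + r2 ≤ 1
  · have : r1 * r2 = 0 := by
      rcases r1 with _ | r1
      · simp
      · have : r2 = 0 := by omega
        simp [this]
    have h3 : (r1 : ℝ) * r2 = 0 := by exact_mod_cast this
    have : (0 : ℝ) ≤ ((r1 + r2 - 1 : ℕ) : ℝ) := Nat.cast_nonneg _
    linarith
  obtain ⟨r, hr'⟩ : ∃ r, r1 + r2 = r + 1 := ⟨r1 + r2 - 1, by omega⟩
  rw [hr'] at h1 hr ⊢
  have h3 : (1 : ℝ) ≤ r := by exact_mod_cast (by omega : 1 ≤ r)
  rcases le_total (r + 1) j with h4 | h4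
  · rw [min_eq_left h4, Nat.add_sub_cancel]
    have h5 := s3_eq r
    push_cast at h1
    nlinarith [mul_nonneg (by linarith : (0 : ℝ) ≤ r) (sq_nonneg ((r : ℝ) - 51.5))]
  · rw [min_eq_right h4]
    obtain ⟨i, rfl⟩ : ∃ i, j = i + 1 := ⟨j - 1, by omega⟩
    have h5 := s3_eq i
    have h6 : ((r + 1 : ℕ) : ℝ) ^ 2 ≤ Θ ^ 2 := by gcongr
    push_cast at hΘ
    have : (0 : ℝ) ≤ ((r + 1 - 1 : ℕ) : ℝ) := Nat.cast_nonneg _
    nlinarith

variable {G : Type*} [Fintype G] [AddCommGroup G] [LinearOrder G]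

/-- the translates through `x` -/
def Bs (A T : Finset G) (x : G) : Finset G := T.filter fun t => x - t ∈ A

omit [Fintype G] in
theorem mem_Bs {A T : Finset G} {x t : G} : t ∈ Bs A T x ↔ t ∈ T ∧ x - t ∈ A := mem_filter

theorem sum_reindex (A T : Finset G) (f : G → G → ℝ) :
    ∑ a ∈ A, ∑ t ∈ T, f (a + t) t = ∑ x, ∑ t ∈ Bs A T x, f x t := by
  simp only [Bs, sum_filter]
  rw [sum_comm, sum_comm (s := univ)]
  refine sum_congr rfl fun t _ => ?_
  rw [← sum_filter]
  refine sum_nbij' (fun a => a + t) (fun x => x - t) ?_ ?_ ?_ ?_ ?_ <;> simp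

/-- points joined to `B` by one difference -/
def Z2 (S1 S3 B : Finset G) : Finset G :=
  univ.filter fun z => ∃ s1 ∈ S1, ∃ s3 ∈ S3, z + s3 - s1 ∈ B

/-- points completing a double point of `B` to a triple point -/
def Z3 (S1 S2 S3 B : Finset G) : Finset G :=
  univ.filter fun z => ∃ s1 ∈ S1, ∃ s2 ∈ S2, ∃ s3 ∈ S3,
    s1 ≠ s2 ∧ z + s3 - s1 ∈ B ∧ z + s3 - s2 ∈ B

theorem Z2_mono (S1 S3 : Finset G) : Monotone (Z2 S1 S3) := by
  intro B C h z hz
  simp only [Z2, mem_filter, mem_univ, true_and] at hz ⊢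
  obtain ⟨s1, h1, s3, h3, h4⟩ := hz
  exact ⟨s1, h1, s3, h3, h h4⟩

theorem Z3_mono (S1 S2 S3 : Finset G) : Monotone (Z3 S1 S2 S3) := by
  intro B C h z hz
  simp only [Z3, mem_filter, mem_univ, true_and] at hz ⊢
  obtain ⟨s1, h1, s2, h2, s3, h3, h4, h5, h6⟩ := hz
  exact ⟨s1, h1, s2, h2, s3, h3, h4, h h5, h h6⟩

theorem card_Z2_le (S1 S3 B : Finset G) : (Z2 S1 S3 B).card ≤ B.card * (S1.card * S3.card) := by
  rw [← card_product, ← card_product]
  refine le_trans (card_le_card ?_) (card_image_le (f := fun x : G × G × G => x.1 + x.2.1 - x.2.2))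
  intro z hz
  simp only [Z2, mem_filter, mem_univ, true_and] at hz
  obtain ⟨s1, h1, s3, h3, h4⟩ := hz
  exact mem_image.mpr ⟨(z + s3 - s1, s1, s3), by simp [h1, h3, h4], by simp⟩

/-- upper tail property for pairs -/
def U2 (A : Finset G) (L : ℕ) : Prop :=
  ∀ S1 S3 : Finset G, ((gen (Z2 S1 S3) A).card : ℝ) ≤
    2 * A.card * (Z2 S1 S3 A).card / Fintype.card G + L * (1 + S1.card + S3.card)

/-- upper tail property for triples -/
def U3 (A : Finset G) (L : ℕ) : Prop :=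
  ∀ S1 S2 S3 : Finset G, ((gen (Z3 S1 S2 S3) A).card : ℝ) ≤
    2 * A.card * (Z3 S1 S2 S3 A).card / Fintype.card G + L * (1 + S1.card + S2.card + S3.card)

/-- lower tail property for a split -/
def Low (A1 A2 : Finset G) (L b : ℕ) : Prop :=
  ∀ S1 S2 : Finset G, 2 / 3 * (A1.card * (Z2 S1 S2 A1).card / Fintype.card G : ℝ) ≤
    (A2 ∩ Z2 S1 S2 A1).card + L * (1 + b + S1.card + S2.card)

/-- bound on the representation function of differences -/
def Rep (A : Finset G) (R : ℝ) : Prop :=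
  ∀ d ≠ 0, ((A.filter fun a => a - d ∈ A).card : ℝ) ≤ R

theorem rep_of_U2 {A : Finset G} {L : ℕ} (h : U2 A L) (hk : A.card ^ 2 ≤ Fintype.card G) :
    Rep A (4 + 6 * L) := by
  have hp : (0 : ℝ) < Fintype.card G := by exact_mod_cast Fintype.card_pos
  have h1 : ∀ d, ((gen (Z2 {d} {0}) A).card : ℝ) ≤ 2 + 3 * L := by
    intro d
    refine (h {d} {0}).trans ?_
    have k1 : ((Z2 {d} {0} A).card : ℝ) ≤ A.card := by
      have := card_Z2_le {d} {0} A
      simp only [card_singleton, mul_one] at this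
      exact_mod_cast this
    have k2 : 2 * (A.card : ℝ) * (Z2 {d} {0} A).card / Fintype.card G ≤ 2 := by
      rw [div_le_iff₀ hp]
      have : (A.card : ℝ) ^ 2 ≤ Fintype.card G := by exact_mod_cast hk
      nlinarith [Nat.cast_nonneg (α := ℝ) A.card]
    simp only [card_singleton, Nat.cast_one]
    linarith
  intro d hd
  have h2 : (A.filter fun a => a - d ∈ A) ⊆
      gen (Z2 {d} {0}) A ∪ (gen (Z2 {-d} {0}) A).image fun a => a + d := by
    intro a ha
    rw [mem_filter] at ha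
    rcases lt_trichotomy (a - d) a with h3 | h3 | h3
    · apply mem_union_left
      simp [gen, Z2, ha.1, ha.2, h3]
    · exact absurd (sub_eq_self.mp h3) hd
    · apply mem_union_right
      refine mem_image.mpr ⟨a - d, ?_, by simp⟩
      simp [gen, Z2, ha.1, ha.2, h3]
  have h3 : (A.filter fun a => a - d ∈ A).card ≤
      (gen (Z2 {d} {0}) A).card + (gen (Z2 {-d} {0}) A).card :=
    (card_le_card h2).trans ((card_union_le _ _).trans (Nat.add_le_add_left card_image_le _))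
  have h4 : ((A.filter fun a => a - d ∈ A).card : ℝ) ≤
      (gen (Z2 {d} {0}) A).card + (gen (Z2 {-d} {0}) A).card := by exact_mod_cast h3
  linarith [h1 d, h1 (-d)]

omit [Fintype G] in
theorem Rep.bound {A : Finset G} {R : ℝ} (h : Rep A R) {d : G} (hd : d ≠ 0) {α : Type*}
    (S : Finset α) (f : α → G) (hf : Set.InjOn f S) (hS : ∀ s ∈ S, f s ∈ A ∧ f s - d ∈ A) :
    (S.card : ℝ) ≤ R := by
  refine le_trans ?_ (h d hd)
  exact_mod_cast card_le_card_of_injOn f (fun s hs => by simpa using hS s hs) hf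

/-- smaller nondegenerate partners of `t` at the point `x` -/
def Us (B : G → Finset G) (Y : Finset G) (x t : G) : Finset G :=
  (B x).filter fun s => x - s < x - t ∧ s - (x - t) ∉ Y

omit [Fintype G] in
theorem rank_le_Us {A T Y : Finset G} {B : G → Finset G} (hB : ∀ x, B x ⊆ Bs A T x)
    (hT : ∀ t ∈ T, ∀ y ∈ Y, ∀ y' ∈ Y, t - y ∈ A → t - y' ∈ A → y = y') {x t : G} (ht : t ∈ T) :
    ((B x).filter fun s => x - s < x - t).card - 1 ≤ (Us B Y x t).card := by
  have h1 := card_filter_add_card_filter_not (s := (B x).filter fun s => x - s < x - t)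
    (fun s => s - (x - t) ∈ Y)
  have h2 : (((B x).filter fun s => x - s < x - t).filter fun s => s - (x - t) ∈ Y).card ≤ 1 := by
    rw [card_le_one]
    intro s hs s' hs'
    simp only [mem_filter] at hs hs'
    have := hT t ht _ hs.2 _ hs'.2 (by convert (mem_Bs.mp (hB x hs.1.1)).2 using 1; abel)
      (by convert (mem_Bs.mp (hB x hs'.1.1)).2 using 1; abel)
    simpa using this
  rw [filter_filter _ (fun s => ¬ s - (x - t) ∈ Y)] at h1
  unfold Us
  omega

omit [Fintype G] in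
theorem sum_Us_ge {A T Y : Finset G} {B : G → Finset G} (hB : ∀ x, B x ⊆ Bs A T x)
    (hT : ∀ t ∈ T, ∀ y ∈ Y, ∀ y' ∈ Y, t - y ∈ A → t - y' ∈ A → y = y') (g : ℕ → ℕ)
    (hg : Monotone g) (x : G) :
    ∑ i ∈ range (B x).card, (g (i - 1) : ℝ) ≤ ∑ t ∈ B x, (g (Us B Y x t).card : ℝ) := by
  rw [← sum_rank (fun s => x - s) sub_right_injective (fun i => (g (i - 1) : ℝ))]
  refine sum_le_sum fun t ht => ?_
  exact_mod_cast hg (rank_le_Us hB hT (mem_Bs.mp (hB x ht)).1)

end Pool.Agent.P.MP_cb22e8_co
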