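import Mathlib

/-!
Upper tail counting: sets generated by a monotone set map.
-/

namespace Pool.Agent.P.MP_cb22e8_co

open Finset

variable {G : Type*} [Fintype G] [LinearOrder G]

/-- the family of `m`-sets avoiding `K` that are generated from `B` -/
def fam (Z : Finset G → Finset G) (B K : Finset G) (m z : ℕ) : Finset (Finset G) :=
  (powersetCard m univ).filter fun A => Disjoint A K ∧
    (∀ a ∈ A, a ∈ Z (B ∪ A.filter (· < a))) ∧ (Z (B ∪ A) \ K).card ≤ z

theorem mem_fam {Z : Finset G → Finset G} {B K A : Finset G} {m z : ℕ} :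
    A ∈ fam Z B K m z ↔ A.card = m ∧ Disjoint A K ∧
      (∀ a ∈ A, a ∈ Z (B ∪ A.filter (· < a))) ∧ (Z (B ∪ A) \ K).card ≤ z := by
  simp [fam, mem_powersetCard]

theorem card_fam_le (Z : Finset G → Finset G) (hZ : Monotone Z) (z : ℕ) :
    ∀ (B K : Finset G) (m : ℕ), (fam Z B K m z).card ≤ z.choose m := by
  induction z with
  | zero =>
    intro B K m
    rcases m with _ | m
    · rw [Nat.choose_zero_right, card_le_one]
      intro A hA A' hA'
      rw [card_eq_zero.mp (mem_fam.mp hA).1, card_eq_zero.mp (mem_fam.mp hA').1]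
    · rw [Nat.choose_zero_succ, Nat.le_zero, card_eq_zero, eq_empty_iff_forall_notMem]
      intro A hA
      obtain ⟨h1, h2, h3, h4⟩ := mem_fam.mp hA
      obtain ⟨a, ha⟩ : A.Nonempty := card_pos.mp (by omega)
      rw [Nat.le_zero, card_eq_zero, eq_empty_iff_forall_notMem] at h4
      refine h4 a (mem_sdiff.mpr ⟨hZ ?_ (h3 a ha), disjoint_left.mp h2 ha⟩)
      exact union_subset_union_right (filter_subset _ _)
  | succ z ih =>
    intro B K m
    rcases m with _ | m
    · rw [Nat.choose_zero_right, card_le_one]
      intro A hA A' hA'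
      rw [card_eq_zero.mp (mem_fam.mp hA).1, card_eq_zero.mp (mem_fam.mp hA').1]
    rcases (fam Z B K (m + 1) (z + 1)).eq_empty_or_nonempty with he | ⟨A0, hA0⟩
    · simp [he]
    obtain ⟨h1, h2, h3, -⟩ := mem_fam.mp hA0
    have hne : A0.Nonempty := card_pos.mp (by omega)
    set g := A0.min' hne with hg
    have hgK : g ∉ K := disjoint_left.mp h2 (min'_mem _ _)
    have hgZ : g ∈ Z B := by
      have := h3 g (min'_mem _ _)
      rwa [filter_false_of_mem (fun a ha => not_lt.mpr (min'_le _ _ ha)), union_empty] at this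
    have key : ∀ A, (Z (B ∪ A) \ K).card ≤ z + 1 → (Z (B ∪ A) \ insert g K).card ≤ z := by
      intro A hA
      have hm : g ∈ Z (B ∪ A) \ K := mem_sdiff.mpr ⟨hZ subset_union_left hgZ, hgK⟩
      rw [sdiff_insert, card_erase_of_mem hm]
      omega
    have hsplit := card_filter_add_card_filter_not (s := fam Z B K (m + 1) (z + 1))
      (fun A => g ∈ A)
    have k1 : ((fam Z B K (m + 1) (z + 1)).filter fun A => ¬ g ∈ A).card ≤ z.choose (m + 1) := by
      refine le_trans (card_le_card ?_) (ih B (insert g K) (m + 1))
      intro A hA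
      rw [mem_filter, mem_fam] at hA
      obtain ⟨⟨a1, a2, a3, a4⟩, a5⟩ := hA
      exact mem_fam.mpr ⟨a1, disjoint_insert_right.mpr ⟨a5, a2⟩, a3, key A a4⟩
    have k2 : ((fam Z B K (m + 1) (z + 1)).filter fun A => g ∈ A).card ≤ z.choose m := by
      refine le_trans (card_le_card_of_injOn (fun A => A.erase g) ?_ ?_)
        (ih (insert g B) (insert g K) m)
      · intro A hA
        rw [coe_filter] at hA
        obtain ⟨hA, a5⟩ := hA
        obtain ⟨a1, a2, a3, a4⟩ := mem_fam.mp hA
        refine mem_coe.mpr (mem_fam.mpr ⟨by rw [card_erase_of_mem a5]; omega, ?_, ?_, ?_⟩)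
        · exact disjoint_insert_right.mpr ⟨notMem_erase _ _, a2.mono_left (erase_subset _ _)⟩
        · intro a ha
          refine hZ ?_ (a3 a (mem_of_mem_erase ha))
          intro b hb
          simp only [mem_union, mem_filter, mem_insert, mem_erase] at hb ⊢
          by_cases hbg : b = g
          · exact Or.inl (Or.inl hbg)
          · tauto
        · have : insert g B ∪ A.erase g = B ∪ A := by
            rw [insert_union, ← union_insert, insert_erase a5]
          rw [this]
          exact key A a4
      · intro A hA A' hA' h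
        rw [coe_filter] at hA hA'
        simp only at h
        rw [← insert_erase hA.2, ← insert_erase hA'.2, h]
    rw [Nat.choose_succ_succ']
    omega

/-- the elements of `A` generated by smaller elements -/
def gen (Z : Finset G → Finset G) (A : Finset G) : Finset G :=
  A.filter fun a => a ∈ Z (A.filter (· < a))

theorem sum_choose_gen_le (Z : Finset G → Finset G) (hZ : Monotone Z) (k m z : ℕ) :
    ∑ A ∈ (powersetCard k univ).filter (fun A => (Z A).card ≤ z), (gen Z A).card.choose m ≤
      (Fintype.card G).choose (k - m) * z.choose m := by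
  have h1 : ∑ A ∈ (powersetCard k univ).filter (fun A => (Z A).card ≤ z), (gen Z A).card.choose m =
      (((powersetCard k univ).filter (fun A => (Z A).card ≤ z)).sigma
        fun A => powersetCard m (gen Z A)).card := by
    rw [card_sigma]
    simp
  have h2 : (((powersetCard (k - m) (univ : Finset G))).sigma fun B => fam Z B ∅ m z).card ≤
      (Fintype.card G).choose (k - m) * z.choose m := by
    rw [card_sigma]
    refine le_trans (sum_le_card_nsmul _ _ _ fun B _ => card_fam_le Z hZ z B ∅ m) ?_
    simp
  rw [h1]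
  refine le_trans (card_le_card_of_injOn (fun x => ⟨x.1 \ x.2, x.2⟩) ?_ ?_) h2
  · rintro ⟨A, C⟩ hx
    simp only [coe_sigma, Set.mem_sigma_iff, mem_coe, mem_filter, mem_powersetCard] at hx ⊢
    obtain ⟨⟨⟨-, hA⟩, hz⟩, hC, hCm⟩ := hx
    have hCA : C ⊆ A := hC.trans (filter_subset _ _)
    refine ⟨⟨subset_univ _, by rw [card_sdiff_of_subset hCA, hA, hCm]⟩, mem_fam.mpr
      ⟨hCm, disjoint_empty_right _, fun a ha => ?_, ?_⟩⟩
    · refine hZ ?_ (mem_filter.mp (hC ha)).2
      intro b hb
      simp only [mem_union, mem_filter, mem_sdiff] at hb ⊢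
      tauto
    · rwa [sdiff_union_of_subset hCA, sdiff_empty]
  · rintro ⟨A, C⟩ hx ⟨A', C'⟩ hx' h
    simp only [coe_sigma, Set.mem_sigma_iff, mem_coe, mem_filter, mem_powersetCard] at hx hx'
    simp only [Sigma.mk.injEq, heq_eq_eq] at h ⊢
    obtain ⟨h3, rfl⟩ := h
    refine ⟨?_, rfl⟩
    rw [← sdiff_union_of_subset (hx.2.1.trans (filter_subset _ _)), h3,
      sdiff_union_of_subset (hx'.2.1.trans (filter_subset _ _))]

theorem choose_sub_le (p k : ℕ) : ∀ m, m ≤ k →
    p.choose (k - m) * (p - k) ^ m ≤ p.choose k * k ^ m := by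
  intro m
  induction m with
  | zero => simp
  | succ m ih =>
    intro hm
    have h1 := Nat.choose_succ_right_eq p (k - (m + 1))
    rw [show k - (m + 1) + 1 = k - m by omega] at h1
    have h2 : p.choose (k - (m + 1)) * (p - k) ≤ p.choose (k - m) * k := by
      calc _ ≤ p.choose (k - (m + 1)) * (p - (k - (m + 1))) := by gcongr; omega
        _ = p.choose (k - m) * (k - m) := h1.symm
        _ ≤ _ := by gcongr; omega
    calc _ = p.choose (k - (m + 1)) * (p - k) * (p - k) ^ m := by ring
      _ ≤ p.choose (k - m) * k * (p - k) ^ m := by gcongr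
      _ = p.choose (k - m) * (p - k) ^ m * k := by ring
      _ ≤ p.choose k * k ^ m * k := Nat.mul_le_mul_right _ (ih (by omega))
      _ = _ := by ring

open Classical in
/-- upper tail bound -/
theorem upper_tail (Z : Finset G → Finset G) (hZ : Monotone Z) (k m : ℕ) (hk : 0 < k) (hm : 0 < m)
    (hp : 4 * k ≤ Fintype.card G) :
    (((powersetCard k (univ : Finset G)).filter fun A =>
      2 * (k : ℝ) * (Z A).card / Fintype.card G + m ≤ (gen Z A).card).card : ℝ) ≤
      (Fintype.card G + 1) * (Fintype.card G).choose k * (2 / 3) ^ m := by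
  set p := Fintype.card G with hpdef
  set S := (powersetCard k (univ : Finset G)).filter fun A =>
      2 * (k : ℝ) * (Z A).card / p + m ≤ (gen Z A).card with hS
  have hp0 : (0 : ℝ) < p := by exact_mod_cast (by omega : 0 < p)
  have hk0 : (0 : ℝ) < k := by exact_mod_cast hk
  have h1 : S.card = ∑ z ∈ range (p + 1), (S.filter fun A => (Z A).card = z).card := by
    apply card_eq_sum_card_fiberwise
    intro A _
    simp only [coe_range, Set.mem_Iio]
    exact Nat.lt_succ_of_le (card_le_univ _)
  have h2 : ∀ z, ((S.filter fun A => (Z A).card = z).card : ℝ) ≤ p.choose k * (2 / 3) ^ m := by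
    intro z
    rcases (S.filter fun A => (Z A).card = z).eq_empty_or_nonempty with he | ⟨A0, hA0⟩
    · rw [he]; simp only [card_empty, Nat.cast_zero]; positivity
    have hmem : ∀ A ∈ S.filter fun A => (Z A).card = z, A.card = k ∧ (Z A).card = z ∧
        2 * (k : ℝ) * z / p + m ≤ (gen Z A).card := by
      intro A hA
      simp only [hS, mem_filter, mem_powersetCard] at hA
      exact ⟨hA.1.1.2, hA.2, hA.2 ▸ hA.1.2⟩
    obtain ⟨a1, a2, a3⟩ := hmem A0 hA0
    have hgm : m ≤ (gen Z A0).card := by
      have : (0 : ℝ) ≤ 2 * (k : ℝ) * z / p := by positivity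
      exact_mod_cast (by linarith : (m : ℝ) ≤ (gen Z A0).card)
    have hmk : m ≤ k := hgm.trans (a1 ▸ card_le_card (filter_subset _ _))
    have hz : 0 < z := by
      obtain ⟨a, ha⟩ : (gen Z A0).Nonempty := card_pos.mp (by omega)
      rw [← a2]
      exact card_pos.mpr ⟨a, hZ (filter_subset _ _) (mem_filter.mp ha).2⟩
    have hz0 : (0 : ℝ) < z := by exact_mod_cast hz
    have h3 : ((S.filter fun A => (Z A).card = z).card : ℝ) * ((2 * k * z / p) ^ m / m.factorial) ≤
        p.choose (k - m) * ((z : ℝ) ^ m / m.factorial) := by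
      have h4 := sum_choose_gen_le Z hZ k m z
      have h5 : ((S.filter fun A => (Z A).card = z).card : ℝ) *
          ((2 * k * z / p) ^ m / m.factorial) ≤
          ∑ A ∈ S.filter fun A => (Z A).card = z, ((gen Z A).card.choose m : ℝ) := by
        rw [← nsmul_eq_mul]
        apply card_nsmul_le_sum
        intro A hA
        obtain ⟨-, -, b3⟩ := hmem A hA
        refine le_trans ?_ (Nat.pow_le_choose m _)
        have hgm' : m ≤ (gen Z A).card := by
          have : (0 : ℝ) ≤ 2 * (k : ℝ) * z / p := by positivity
          exact_mod_cast (by linarith : (m : ℝ) ≤ (gen Z A).card)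
        gcongr
        rw [Nat.cast_sub (by omega)]
        push_cast
        linarith
      have h6 : ∑ A ∈ S.filter fun A => (Z A).card = z, ((gen Z A).card.choose m : ℝ) ≤
          ∑ A ∈ (powersetCard k univ).filter (fun A => (Z A).card ≤ z),
            ((gen Z A).card.choose m : ℝ) := by
        apply sum_le_sum_of_subset_of_nonneg
        · intro A hA
          obtain ⟨b1, b2, -⟩ := hmem A hA
          simp [mem_powersetCard, b1, b2]
        · intros; positivity
      have h7 : (∑ A ∈ (powersetCard k univ).filter (fun A => (Z A).card ≤ z),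
            ((gen Z A).card.choose m : ℝ)) ≤ p.choose (k - m) * z.choose m := by
        exact_mod_cast h4
      refine h5.trans (h6.trans (h7.trans ?_))
      gcongr
      exact Nat.choose_le_pow_div m z
    have h4 : (p.choose (k - m) : ℝ) * (p - k) ^ m ≤ p.choose k * k ^ m := by
      have := choose_sub_le p k m hmk
      rw [← Nat.cast_sub (by omega)]
      exact_mod_cast this
    have hpk : (3 / 4 : ℝ) * p ≤ p - k := by
      have : (4 : ℝ) * k ≤ p := by exact_mod_cast hp
      linarith
    have h5 : ((S.filter fun A => (Z A).card = z).card : ℝ) * (2 * k / p) ^ m ≤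
        p.choose (k - m) := by
      have hpos : (0 : ℝ) < (z : ℝ) ^ m / m.factorial := by positivity
      refine le_of_mul_le_mul_right (le_trans (le_of_eq ?_) h3) hpos
      rw [show 2 * (k : ℝ) * z / p = 2 * k / p * z by ring, mul_pow]
      ring
    have hpos : (0 : ℝ) < (3 / 2 * k) ^ m := by positivity
    refine le_of_mul_le_mul_right ?_ hpos
    calc _ = ((S.filter fun A => (Z A).card = z).card : ℝ) * (2 * k / p) ^ m * (3 / 4 * p) ^ m := by
          rw [mul_assoc, ← mul_pow]
          congr 2
          field_simp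
          norm_num
      _ ≤ p.choose (k - m) * (p - k) ^ m := by gcongr
      _ ≤ p.choose k * k ^ m := h4
      _ = _ := by
          rw [mul_assoc, ← mul_pow]
          congr 2
          ring
  rw [h1]
  push_cast
  refine le_trans (sum_le_card_nsmul _ _ _ fun z _ => h2 z) ?_
  simp [mul_assoc]

end Pool.Agent.P.MP_cb22e8_co
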