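import Mathlib

/-!
Numerical inequalities in the scale parameter.
-/

namespace Pool.Agent.P.MP_cb22e8_co

theorem pow_gap {x : ℝ} (hx : 10 ^ 6 ≤ x) {m n : ℕ} (h : m < n) : 10 ^ 6 * x ^ m ≤ x ^ n := by
  have h1 : (1 : ℝ) ≤ x := le_trans (by norm_num) hx
  calc 10 ^ 6 * x ^ m ≤ x * x ^ m := by gcongr
    _ = x ^ (m + 1) := by ring
    _ ≤ x ^ n := pow_le_pow_right₀ h1 h

theorem inv_pow_mul {x : ℝ} (hx : 10 ^ 6 ≤ x) (m n : ℕ) : (x ^ m)⁻¹ * x ^ (m + n) = x ^ n := by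
  have h1 : (0 : ℝ) < x := lt_of_lt_of_le (by norm_num) hx
  field_simp
  ring

theorem inv_small {x : ℝ} (hx : 10 ^ 6 ≤ x) {m n : ℕ} (h : n < m) :
    (x ^ m)⁻¹ * x ^ n ≤ 1 / 10 ^ 6 := by
  have h1 : (0 : ℝ) < x := lt_of_lt_of_le (by norm_num) hx
  rw [inv_mul_le_iff₀ (by positivity)]
  have := pow_gap hx h
  linarith

theorem num2_kappa {x c : ℝ} (hx : 10 ^ 6 ≤ x) (hc : c ≤ 101 / 100 * x ^ 100) :
    (x ^ 90)⁻¹ ^ 2 * (c * x ^ 54) + 2 * (x ^ 90)⁻¹ * x ^ 54 ≤ 1 / 1000 := by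
  have h1 : (0 : ℝ) < x := lt_of_lt_of_le (by norm_num) hx
  have h2 := inv_small hx (show 154 < 180 by norm_num)
  have h3 := inv_small hx (show 54 < 90 by norm_num)
  have h4 : (x ^ 90)⁻¹ ^ 2 * (c * x ^ 54) ≤ (x ^ 90)⁻¹ ^ 2 * (101 / 100 * x ^ 100 * x ^ 54) := by
    gcongr
  have h5 : (x ^ 90)⁻¹ ^ 2 * (101 / 100 * x ^ 100 * x ^ 54) =
      101 / 100 * ((x ^ 180)⁻¹ * x ^ 154) := by
    field_simp
  linarith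

theorem num2 {x c L S : ℝ} (hx : 10 ^ 6 ≤ x) (hc0 : 0 ≤ c) (hc : c ≤ 101 / 100 * x ^ 100)
    (hL : L ≤ 2 * x) (hS : 0 ≤ S)
    (h : (x ^ 90)⁻¹ ^ 2 * S *
        (1 - ((x ^ 90)⁻¹ ^ 2 * (c * x ^ 54) + 2 * (x ^ 90)⁻¹ * x ^ 54)) ≤
      2 * ((x ^ 90)⁻¹ * c) ^ 2 + L * (1 + 2 * ((x ^ 90)⁻¹ * c))) : S ≤ 205 / 100 * x ^ 200 := by
  have h1 : (0 : ℝ) < x := lt_of_lt_of_le (by norm_num) hx
  have h2 := num2_kappa hx hc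
  have h3 : (x ^ 90)⁻¹ * c ≤ 101 / 100 * x ^ 10 := by
    rw [← inv_pow_mul hx 90 10, mul_left_comm]
    gcongr
  have h4 : 0 ≤ (x ^ 90)⁻¹ * c := by positivity
  have h5 : 2 * ((x ^ 90)⁻¹ * c) ^ 2 + L * (1 + 2 * ((x ^ 90)⁻¹ * c)) ≤
      2 * (101 / 100 * x ^ 10) ^ 2 + 2 * x * (1 + 2 * (101 / 100 * x ^ 10)) := by gcongr
  have h6 := pow_gap hx (show 1 < 20 by norm_num)
  have h7 := pow_gap hx (show 11 < 20 by norm_num)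
  have h8 : (x ^ 90)⁻¹ ^ 2 * S * (1 - 1 / 1000) ≤ (x ^ 90)⁻¹ ^ 2 * S *
      (1 - ((x ^ 90)⁻¹ ^ 2 * (c * x ^ 54) + 2 * (x ^ 90)⁻¹ * x ^ 54)) := by gcongr
  have h9 : (x ^ 90)⁻¹ ^ 2 * S ≤ 205 / 100 * x ^ 20 := by
    have : 0 ≤ x ^ 20 := by positivity
    nlinarith
  rw [inv_pow, inv_mul_le_iff₀ (by positivity)] at h9
  linarith

theorem num3_kappa {x : ℝ} (hx : 10 ^ 6 ≤ x) :
    (x ^ 49)⁻¹ ^ 3 * (x ^ 38 * x ^ 108) + 3 * (x ^ 49)⁻¹ ^ 2 * (x ^ 54 * x ^ 38) +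
      3 * (x ^ 49)⁻¹ * x ^ 38 ≤ 1 / 1000 := by
  have h1 : (0 : ℝ) < x := lt_of_lt_of_le (by norm_num) hx
  have h2 := inv_small hx (show 146 < 147 by norm_num)
  have h3 := inv_small hx (show 92 < 98 by norm_num)
  have h4 := inv_small hx (show 38 < 49 by norm_num)
  have h5 : (x ^ 49)⁻¹ ^ 3 * (x ^ 38 * x ^ 108) = (x ^ 147)⁻¹ * x ^ 146 := by field_simp
  have h6 : 3 * (x ^ 49)⁻¹ ^ 2 * (x ^ 54 * x ^ 38) = 3 * ((x ^ 98)⁻¹ * x ^ 92) := by field_simp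
  linarith

theorem num3 {x c L N p Hc M : ℝ} (hx : 10 ^ 6 ≤ x) (hc0 : 0 ≤ c) (hc : c ≤ 101 / 100 * x ^ 100)
    (hL : L ≤ 2 * x) (hN : 0 ≤ N) (hp : x ^ 200 ≤ p) (hH : Hc ≤ 5 * x ^ 46)
    (hM : M ≤ 412 / 100 * x ^ 200)
    (h : (x ^ 49)⁻¹ ^ 3 * N * (1 - ((x ^ 49)⁻¹ ^ 3 * (x ^ 38 * x ^ 108) +
        3 * (x ^ 49)⁻¹ ^ 2 * (x ^ 54 * x ^ 38) + 3 * (x ^ 49)⁻¹ * x ^ 38)) ≤
      2 * x ^ 100 / p * ((x ^ 49)⁻¹ * c * (Hc + (x ^ 49)⁻¹ ^ 2 * M)) +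
        L * (1 + 3 * ((x ^ 49)⁻¹ * c))) : N ≤ 84 / 10 * x ^ 200 := by
  have h1 : (0 : ℝ) < x := lt_of_lt_of_le (by norm_num) hx
  have hp0 : 0 < p := lt_of_lt_of_le (by positivity) hp
  have h2 := num3_kappa hx
  have h3 : (x ^ 49)⁻¹ * c ≤ 101 / 100 * x ^ 51 := by
    rw [← inv_pow_mul hx 49 51, mul_left_comm]
    gcongr
  have h4 : 0 ≤ (x ^ 49)⁻¹ * c := by positivity
  have h5 : (x ^ 49)⁻¹ ^ 2 * M ≤ 412 / 100 * x ^ 102 := by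
    rw [inv_pow, inv_mul_le_iff₀ (by positivity)]
    linarith
  have h6 : 2 * x ^ 100 / p * ((x ^ 49)⁻¹ * c * (Hc + (x ^ 49)⁻¹ ^ 2 * M)) ≤
      2 * x ^ 100 / p * ((x ^ 49)⁻¹ * c * (5 * x ^ 46 + 412 / 100 * x ^ 102)) := by gcongr
  have h7 : 2 * x ^ 100 / p * ((x ^ 49)⁻¹ * c * (5 * x ^ 46 + 412 / 100 * x ^ 102)) ≤
      2 * x ^ 100 / x ^ 200 * (101 / 100 * x ^ 51 * (5 * x ^ 46 + 412 / 100 * x ^ 102)) := by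
    gcongr
  have h8 : 2 * x ^ 100 / x ^ 200 * (101 / 100 * x ^ 51 * (5 * x ^ 46 + 412 / 100 * x ^ 102)) =
      101 / 10 * ((x ^ 3)⁻¹ * x ^ 0) + 83224 / 10000 * x ^ 53 := by
    field_simp
    ring
  have h9 : L * (1 + 3 * ((x ^ 49)⁻¹ * c)) ≤ 2 * x * (1 + 3 * (101 / 100 * x ^ 51)) := by gcongr
  have k1 := inv_small hx (show 0 < 3 by norm_num)
  have k2 := pow_gap hx (show 1 < 53 by norm_num)
  have k3 := pow_gap hx (show 52 < 53 by norm_num)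
  have k4 := pow_gap hx (show 0 < 53 by norm_num)
  have k5 : (x ^ 49)⁻¹ ^ 3 * N * (1 - 1 / 1000) ≤ (x ^ 49)⁻¹ ^ 3 * N *
      (1 - ((x ^ 49)⁻¹ ^ 3 * (x ^ 38 * x ^ 108) +
        3 * (x ^ 49)⁻¹ ^ 2 * (x ^ 54 * x ^ 38) + 3 * (x ^ 49)⁻¹ * x ^ 38)) := by gcongr
  have k6 : (x ^ 49)⁻¹ ^ 3 * N ≤ 84 / 10 * x ^ 53 := by
    have : 0 ≤ x ^ 53 := by positivity
    nlinarith
  rw [inv_pow, inv_mul_le_iff₀ (by positivity)] at k6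
  linarith

theorem numL {x c L b p Hc W h R : ℝ} (hx : 10 ^ 6 ≤ x) (hc0 : 999 / 1000 * x ^ 100 ≤ c)
    (hc : c ≤ 101 / 100 * x ^ 100) (hL : L ≤ 2 * x) (hp0 : 0 < p)
    (hp : p ≤ 1001 / 1000 * x ^ 200) (hH : Hc ≤ 5 * x ^ 46) (hb0 : 0 ≤ b) (hb : b ≤ 19 * x ^ 93)
    (hh : 499 / 1000 * x ^ 100 ≤ h) (hR : R ≤ 16 * x)
    (H : 2 / 3 * (h / p) * (h * ((x ^ 52)⁻¹ ^ 2 * c ^ 2 *
        (1 - ((x ^ 52)⁻¹ ^ 2 * c + 2 * (x ^ 52)⁻¹ * 1))) -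
        R * ((x ^ 52)⁻¹ * c * ((x ^ 52)⁻¹ * c + 1)) ^ 2) ≤
      Hc * ((x ^ 52)⁻¹ * c) + (x ^ 52)⁻¹ ^ 2 * W + L * (1 + b + 2 * ((x ^ 52)⁻¹ * c))) :
    16 / 100 * x ^ 200 ≤ W := by
  have h1 : (0 : ℝ) < x := lt_of_lt_of_le (by norm_num) hx
  have h2 : (x ^ 52)⁻¹ * c ≤ 101 / 100 * x ^ 48 := by
    rw [← inv_pow_mul hx 52 48, mul_left_comm]
    gcongr
  have h3 : 999 / 1000 * x ^ 48 ≤ (x ^ 52)⁻¹ * c := by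
    rw [← inv_pow_mul hx 52 48, mul_left_comm]
    gcongr
  have h4 : (x ^ 52)⁻¹ ^ 2 * c + 2 * (x ^ 52)⁻¹ * 1 ≤ 1 / 1000 := by
    have a1 := inv_small hx (show 48 < 52 by norm_num)
    have a2 := inv_small hx (show 0 < 52 by norm_num)
    have a3 : (x ^ 52)⁻¹ * ((x ^ 52)⁻¹ * c) ≤ (x ^ 52)⁻¹ * (101 / 100 * x ^ 48) := by gcongr
    nlinarith
  rw [← mul_pow] at H
  set v := (x ^ 52)⁻¹ * c with hv
  have hv0 : 0 ≤ v := le_trans (by positivity) h3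
  have h5 : 499 / 1000 * x ^ 100 * ((999 / 1000 * x ^ 48) ^ 2 * (1 - 1 / 1000)) ≤
      h * (v ^ 2 * (1 - ((x ^ 52)⁻¹ ^ 2 * c + 2 * (x ^ 52)⁻¹ * 1))) := by
    gcongr
    exact le_trans (by positivity) hh
  have k0 := pow_gap hx (show 0 < 48 by norm_num)
  have h6 : R * (v * (v + 1)) ^ 2 ≤ 16 * x * (101 / 100 * x ^ 48 * (2 * x ^ 48)) ^ 2 := by
    gcongr
    linarith
  have k1 := pow_gap hx (show 193 < 196 by norm_num)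
  have h7 : 496 / 1000 * x ^ 196 ≤
      h * (v ^ 2 * (1 - ((x ^ 52)⁻¹ ^ 2 * c + 2 * (x ^ 52)⁻¹ * 1))) - R * (v * (v + 1)) ^ 2 := by
    have : 0 ≤ x ^ 193 := by positivity
    nlinarith
  have h8 : 498 / 1000 * (x ^ 100)⁻¹ ≤ h / p := by
    rw [le_div_iff₀ hp0]
    have a1 : 498 / 1000 * (x ^ 100)⁻¹ * p ≤ 498 / 1000 * (x ^ 100)⁻¹ * (1001 / 1000 * x ^ 200) := by
      gcongr
    have a2 := inv_pow_mul hx 100 100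
    have : 0 ≤ x ^ 100 := by positivity
    nlinarith
  have h9 : 2 / 3 * (498 / 1000 * (x ^ 100)⁻¹) * (496 / 1000 * x ^ 196) ≤ 2 / 3 * (h / p) *
      (h * (v ^ 2 * (1 - ((x ^ 52)⁻¹ ^ 2 * c + 2 * (x ^ 52)⁻¹ * 1))) -
        R * (v * (v + 1)) ^ 2) := by
    gcongr
    have : 0 ≤ h / p := le_trans (by positivity) h8
    positivity
  have k2 := inv_pow_mul hx 100 96
  have k3 : Hc * v ≤ 5 * x ^ 46 * (101 / 100 * x ^ 48) := mul_le_mul hH h2 hv0 (by positivity)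
  have k4 : L * (1 + b + 2 * v) ≤ 2 * x * (1 + 19 * x ^ 93 + 2 * (101 / 100 * x ^ 48)) :=
    mul_le_mul hL (by linarith) (by linarith) (by linarith)
  have k5 := pow_gap hx (show 94 < 96 by norm_num)
  have k6 := pow_gap hx (show 1 < 96 by norm_num)
  have k7 := pow_gap hx (show 49 < 96 by norm_num)
  have k8 : 16 / 100 * x ^ 96 ≤ (x ^ 52)⁻¹ ^ 2 * W := by
    have : 0 ≤ x ^ 96 := by positivity
    nlinarith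
  rw [inv_pow, le_inv_mul_iff₀ (by positivity)] at k8
  linarith

end Pool.Agent.P.MP_cb22e8_co
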