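import Pool.Agent.P.MP_cb22e8_co.StepThree
import Pool.Agent.P.MP_cb22e8_co.Numeric

/-!
The deterministic assembly: a set with the three tail properties has no efficient covering.
-/

namespace Pool.Agent.P.MP_cb22e8_co

open Finset

variable {G : Type*} [Fintype G] [AddCommGroup G] [LinearOrder G]

theorem sum_card_Bs (A T : Finset G) :
    ∑ x, ((Bs A T x).card : ℝ) = A.card * T.card := by
  have := sum_reindex A T fun _ _ => (1 : ℝ)
  simp only [sum_const, nsmul_eq_mul, mul_one] at this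
  exact this.symm

theorem excess {A T : Finset G} (h : ∀ x, (Bs A T x).Nonempty) :
    ∑ x, (((Bs A T x).card - 1 : ℕ) : ℝ) = A.card * T.card - Fintype.card G := by
  rw [← sum_card_Bs, sum_congr rfl fun x _ => Nat.cast_sub (card_pos.mpr (h x)), sum_sub_distrib]
  simp

omit [Fintype G] in
theorem energy {A T : Finset G} {R : ℝ} (hR0 : 0 ≤ R) (hR : Rep A R) :
    ∑ a ∈ A, ∑ t ∈ T, ((Bs A T (a + t)).card : ℝ) ≤ T.card * (A.card + T.card * R) := by
  classical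
  rw [sum_comm, ← nsmul_eq_mul]
  refine sum_le_card_nsmul _ _ _ fun t ht => ?_
  have e : ∑ a ∈ A, ((Bs A T (a + t)).card : ℝ) =
      ∑ s ∈ T, ((A.filter fun a => a - (s - t) ∈ A).card : ℝ) := by
    simp only [Bs, card_filter]
    push_cast
    rw [sum_comm]
    refine sum_congr rfl fun s _ => sum_congr rfl fun a _ => ?_
    rw [show a + t - s = a - (s - t) by abel]
  rw [e, ← add_sum_erase T _ ht]
  refine add_le_add (by exact_mod_cast card_filter_le _ _) ?_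
  refine (sum_le_card_nsmul _ _ R fun s hs => hR _ (sub_ne_zero.mpr (ne_of_mem_erase hs))).trans ?_
  rw [nsmul_eq_mul]
  gcongr
  exact erase_subset _ _

theorem heavy_num {x c R : ℝ} (hx : 10 ^ 6 ≤ x) (hc : c ≤ 101 / 100 * x ^ 100) (hR0 : 0 ≤ R)
    (hR : R ≤ 16 * x) :
    c < (⌈4 * x ^ 46⌉₊ : ℝ) * x ^ 54 - (⌈4 * x ^ 46⌉₊ : ℝ) ^ 2 * R ∧
      (⌈4 * x ^ 46⌉₊ : ℝ) ≤ 5 * x ^ 46 := by
  have h1 : (0 : ℝ) < x := lt_of_lt_of_le (by norm_num) hx
  have h2 := Nat.le_ceil (4 * x ^ 46)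
  have h3 := Nat.ceil_lt_add_one (show 0 ≤ 4 * x ^ 46 by positivity)
  have h4 := pow_gap hx (show 0 < 46 by norm_num)
  have h5 : (⌈4 * x ^ 46⌉₊ : ℝ) ≤ 5 * x ^ 46 := by linarith
  refine ⟨?_, h5⟩
  have h6 : 4 * x ^ 46 * x ^ 54 ≤ (⌈4 * x ^ 46⌉₊ : ℝ) * x ^ 54 := by gcongr
  have h7 : (⌈4 * x ^ 46⌉₊ : ℝ) ^ 2 * R ≤ (5 * x ^ 46) ^ 2 * (16 * x) := by gcongr
  have h8 := pow_gap hx (show 93 < 100 by norm_num)
  have h9 : 0 < x ^ 100 := by positivity
  nlinarith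

/-- removal of heavy points and degenerate translates -/
theorem clean {A T0 : Finset G} {x R : ℝ} (hx : 10 ^ 6 ≤ x) (hR0 : 0 ≤ R) (hR : Rep A R)
    (hRx : R ≤ 16 * x) (hc : (T0.card : ℝ) ≤ 101 / 100 * x ^ 100) :
    ∃ T H Y : Finset G, T ⊆ T0 ∧ (T0.card : ℝ) ≤ T.card + 400 * x ^ 93 ∧
      (H.card : ℝ) ≤ 5 * x ^ 46 ∧ (∀ z ∉ H, ((Bs A T z).card : ℝ) ≤ x ^ 54) ∧
      (∀ y ∉ Y, ((T.filter fun t => t - y ∈ A).card : ℝ) ≤ x ^ 54) ∧
      ∀ t ∈ T, ∀ y ∈ Y, ∀ y' ∈ Y, t - y ∈ A → t - y' ∈ A → y = y' := by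
  classical
  obtain ⟨n1, n2⟩ := heavy_num hx hc hR0 hRx
  set H := univ.filter fun z => x ^ 54 ≤ ((Bs A T0 z).card : ℝ) with hH
  set Y := univ.filter fun y => x ^ 54 ≤ ((T0.filter fun t => t - y ∈ A).card : ℝ) with hY
  have k0 : ∀ y y', y ≠ y' → (((T0.filter fun t => t - y ∈ A) ∩
      (T0.filter fun t => t - y' ∈ A)).card : ℝ) ≤ R := by
    intro y y' hne
    refine hR.bound (d := y' - y) (sub_ne_zero.mpr hne.symm) _ (fun t => t - y)
      sub_left_injective.injOn fun t ht => ?_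
    simp only [mem_inter, mem_filter] at ht
    exact ⟨ht.1.2, by convert ht.2.2 using 1; abel⟩
  have k1 : H.card ≤ ⌈4 * x ^ 46⌉₊ := by
    refine few_heavy (Bs A T0) T0 hR0 H (fun z => filter_subset _ _)
      (fun z hz => (mem_filter.mp hz).2) (fun z z' hne => ?_) _ n1
    refine hR.bound (d := z - z') (sub_ne_zero.mpr hne) _ (fun t => z - t)
      sub_right_injective.injOn fun t ht => ?_
    simp only [mem_inter, mem_Bs] at ht
    exact ⟨ht.1.2, by convert ht.2.2 using 1; abel⟩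
  have k2 : Y.card ≤ ⌈4 * x ^ 46⌉₊ :=
    few_heavy (fun y => T0.filter fun t => t - y ∈ A) T0 hR0 Y (fun z => filter_subset _ _)
      (fun z hz => (mem_filter.mp hz).2) k0 _ n1
  set D := Y.offDiag.biUnion fun τ =>
    (T0.filter fun t => t - τ.1 ∈ A) ∩ (T0.filter fun t => t - τ.2 ∈ A) with hD
  have k3 : (D.card : ℝ) ≤ 400 * x ^ 93 := by
    have a1 : (D.card : ℝ) ≤ ∑ τ ∈ Y.offDiag, (((T0.filter fun t => t - τ.1 ∈ A) ∩
        (T0.filter fun t => t - τ.2 ∈ A)).card : ℝ) := by exact_mod_cast card_biUnion_le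
    have a2 := sum_le_card_nsmul Y.offDiag _ R fun τ hτ => k0 τ.1 τ.2 (mem_offDiag.mp hτ).2.2
    have a3 : (Y.offDiag.card : ℝ) ≤ (5 * x ^ 46) * (5 * x ^ 46) := by
      have b1 : (Y.card : ℝ) ≤ 5 * x ^ 46 := le_trans (by exact_mod_cast k2) n2
      have b2 : (Y.offDiag.card : ℝ) ≤ Y.card * Y.card := by
        rw [offDiag_card]
        exact_mod_cast Nat.sub_le _ _
      exact b2.trans (mul_le_mul b1 b1 (Nat.cast_nonneg _) ((Nat.cast_nonneg _).trans b1))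
    rw [nsmul_eq_mul] at a2
    have a4 := mul_le_mul a3 hRx hR0 ((Nat.cast_nonneg _).trans a3)
    linarith
  refine ⟨T0 \ D, H, Y, sdiff_subset, ?_, le_trans (by exact_mod_cast k1) n2, ?_, ?_, ?_⟩
  · have : (T0.card : ℝ) ≤ (T0 \ D).card + D.card := by exact_mod_cast card_le_card_sdiff_add_card
    linarith
  · intro z hz
    have a1 : ((Bs A T0 z).card : ℝ) < x ^ 54 := by simpa [hH] using hz
    refine le_trans ?_ a1.le
    exact_mod_cast card_le_card (filter_subset_filter _ sdiff_subset)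
  · intro y hy
    have a1 : ((T0.filter fun t => t - y ∈ A).card : ℝ) < x ^ 54 := by simpa [hY] using hy
    refine le_trans ?_ a1.le
    exact_mod_cast card_le_card (filter_subset_filter _ sdiff_subset)
  · intro t ht y hy y' hy' a b
    by_contra hne
    obtain ⟨t1, t2⟩ := mem_sdiff.mp ht
    exact t2 (mem_biUnion.mpr ⟨(y, y'), mem_offDiag.mpr ⟨hy, hy', hne⟩,
      mem_inter.mpr ⟨mem_filter.mpr ⟨t1, a⟩, mem_filter.mpr ⟨t1, b⟩⟩⟩)

omit [Fintype G] in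
/-- removal of the elements of large local energy -/
theorem trim {A T : Finset G} {x R : ℝ} (hx : 10 ^ 6 ≤ x) (hR0 : 0 ≤ R) (hR : Rep A R)
    (hRx : R ≤ 16 * x) (hk : (A.card : ℝ) = x ^ 100) (hc : (T.card : ℝ) ≤ 101 / 100 * x ^ 100) :
    ∃ A' ⊆ A, ∃ h : ℕ, A'.card = 2 * h ∧ (A.card : ℝ) ≤ 2 * h + 19 * x ^ 93 ∧
      ∀ a ∈ A', ∑ t ∈ T, ((Bs A T (a + t)).card : ℝ) ≤ x ^ 108 := by
  classical
  have h1 : (0 : ℝ) < x := lt_of_lt_of_le (by norm_num) hx
  set P : G → Prop := fun a => ∑ t ∈ T, ((Bs A T (a + t)).card : ℝ) ≤ x ^ 108 with hP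
  have k1 : ((A.filter fun a => ¬ P a).card : ℝ) * x ^ 108 ≤ T.card * (A.card + T.card * R) := by
    refine le_trans ?_ (energy hR0 hR)
    rw [← nsmul_eq_mul]
    refine (card_nsmul_le_sum _ _ _ fun a ha => (not_le.mp (mem_filter.mp ha).2).le).trans ?_
    exact sum_le_sum_of_subset_of_nonneg (filter_subset _ _) fun a _ _ =>
      sum_nonneg fun t _ => Nat.cast_nonneg _
  have k2 : (T.card : ℝ) * (A.card + T.card * R) ≤
      101 / 100 * x ^ 100 * (x ^ 100 + 101 / 100 * x ^ 100 * (16 * x)) := by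
    rw [hk]
    gcongr
  have k3 : ((A.filter fun a => ¬ P a).card : ℝ) ≤ 18 * x ^ 93 := by
    have a1 := pow_gap hx (show 200 < 201 by norm_num)
    have a2 : 0 < x ^ 200 := by positivity
    refine le_of_mul_le_mul_right ?_ (show 0 < x ^ 108 by positivity)
    nlinarith
  obtain ⟨A', hA', hc'⟩ := exists_subset_card_eq (s := A.filter P)
    (n := 2 * ((A.filter P).card / 2)) (by omega)
  refine ⟨A', hA'.trans (filter_subset _ _), _, hc', ?_, fun a ha => (mem_filter.mp (hA' ha)).2⟩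
  have k4 : ((A.filter P).card : ℝ) + (A.filter fun a => ¬ P a).card = A.card := by
    exact_mod_cast card_filter_add_card_filter_not _
  have k5 : ((A.filter P).card : ℝ) ≤ 2 * ((A.filter P).card / 2 : ℕ) + 1 := by
    exact_mod_cast (by omega : (A.filter P).card ≤ 2 * ((A.filter P).card / 2) + 1)
  have k6 := pow_gap hx (show 0 < 93 by norm_num)
  linarith

theorem floor_num {x : ℝ} (hx : 10 ^ 6 ≤ x) : 1 ≤ ⌊x ^ 38⌋₊ ∧
    100 * (x ^ 54) ^ 2 ≤ ((⌊x ^ 38⌋₊ : ℝ) - 1) * (⌊x ^ 38⌋₊ - 2) * (⌊x ^ 38⌋₊ - 3) := by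
  have h1 : (0 : ℝ) < x := lt_of_lt_of_le (by norm_num) hx
  have h2 := pow_gap hx (show 0 < 38 by norm_num)
  have h3 := Nat.lt_floor_add_one (x ^ 38)
  refine ⟨Nat.one_le_floor_iff _ |>.mpr (by linarith), ?_⟩
  have h4 : x ^ 38 / 2 * (x ^ 38 / 2) * (x ^ 38 / 2) ≤
      ((⌊x ^ 38⌋₊ : ℝ) - 1) * (⌊x ^ 38⌋₊ - 2) * (⌊x ^ 38⌋₊ - 3) := by
    refine mul_le_mul (mul_le_mul ?_ ?_ ?_ ?_) ?_ ?_ (mul_nonneg ?_ ?_) <;> linarith
  have h5 := pow_gap hx (show 108 < 114 by norm_num)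
  have h6 : 0 < x ^ 108 := by positivity
  nlinarith

/-- the split property -/
def Spl (A : Finset G) (L : ℕ) : Prop :=
  ∀ A' ⊆ A, ∀ h, A'.card = 2 * h → ∃ B ⊆ A', B.card = h ∧ Low B (A' \ B) L (A.card - 2 * h)

theorem no_cover {A T0 : Finset G} {L : ℕ} {x : ℝ} (hx : 10 ^ 6 ≤ x) (hk : (A.card : ℝ) = x ^ 100)
    (hp1 : A.card ^ 2 ≤ Fintype.card G) (hp2 : Fintype.card G ≤ (A.card + 1) ^ 2)
    (hL : (L : ℝ) ≤ 2 * x) (h2 : U2 A L) (h3 : U3 A L) (hS : Spl A L)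
    (hc : 100 * T0.card ≤ 101 * A.card) (hcov : ∀ z, (Bs A T0 z).Nonempty) : False := by
  classical
  have x0 : (0 : ℝ) < x := lt_of_lt_of_le (by norm_num) hx
  have x1 : (1 : ℝ) ≤ x := le_trans (by norm_num) hx
  have hR := rep_of_U2 h2 hp1
  have hR0 : (0 : ℝ) ≤ 4 + 6 * L := by positivity
  have hRx : (4 : ℝ) + 6 * L ≤ 16 * x := by linarith
  have c0 : (T0.card : ℝ) ≤ 101 / 100 * x ^ 100 := by
    have : (100 : ℝ) * T0.card ≤ 101 * A.card := by exact_mod_cast hc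
    linarith
  have p1 : x ^ 200 ≤ Fintype.card G := by
    have : (A.card : ℝ) ^ 2 ≤ Fintype.card G := by exact_mod_cast hp1
    rw [hk] at this
    linarith
  have g0 := pow_gap hx (show 0 < 100 by norm_num)
  have g1 := pow_gap hx (show 93 < 100 by norm_num)
  have g2 := pow_gap hx (show 100 < 200 by norm_num)
  have p2 : (Fintype.card G : ℝ) ≤ 1001 / 1000 * x ^ 200 := by
    have : (Fintype.card G : ℝ) ≤ (A.card + 1) ^ 2 := by exact_mod_cast hp2
    rw [hk] at this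
    nlinarith
  have ex := excess hcov
  have ex0 : 0 ≤ ∑ z, (((Bs A T0 z).card - 1 : ℕ) : ℝ) := sum_nonneg fun _ _ => Nat.cast_nonneg _
  have c1 : x ^ 100 ≤ T0.card := by
    refine le_of_mul_le_mul_left ?_ (show 0 < x ^ 100 by positivity)
    rw [ex, hk] at ex0
    linarith
  have ex1 : ∑ z, (((Bs A T0 z).card - 1 : ℕ) : ℝ) ≤ 1 / 100 * x ^ 200 := by
    rw [ex, hk]
    have : x ^ 100 * T0.card ≤ x ^ 100 * (101 / 100 * x ^ 100) := by gcongr
    linarith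
  obtain ⟨T, H, Y, hT0, c2, hH, hH', hY, hT⟩ := clean hx hR0 hR hRx c0
  have c3 : (T.card : ℝ) ≤ 101 / 100 * x ^ 100 := le_trans (by exact_mod_cast card_le_card hT0) c0
  have ex2 : ∀ A' ⊆ A, ∑ z ∈ Hᶜ, (((Bs A' T z).card - 1 : ℕ) : ℝ) ≤ 1 / 100 * x ^ 200 := by
    intro A' hA'
    refine le_trans ?_ ex1
    refine le_trans (sum_le_sum fun z _ => ?_) (sum_le_sum_of_subset_of_nonneg (subset_univ Hᶜ)
      fun _ _ _ => Nat.cast_nonneg _)
    have : Bs A' T z ⊆ Bs A T0 z := fun t ht =>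
      mem_Bs.mpr ⟨hT0 (mem_Bs.mp ht).1, hA' (mem_Bs.mp ht).2⟩
    exact_mod_cast Nat.sub_le_sub_right (card_le_card this) 1
  have ρ1 : ∀ n : ℕ, (x ^ n)⁻¹ ≤ 1 := fun n => inv_le_one_of_one_le₀ (one_le_pow₀ x1)
  have s2b := num2 (S := ∑ z ∈ Hᶜ, s2 (Bs A T z).card) hx (Nat.cast_nonneg _) c3 hL
    (sum_nonneg fun z _ => sum_nonneg fun _ _ => Nat.cast_nonneg _) (step_U2 (by positivity) (ρ1 90) (by positivity) h2 hp1 hH' hY hT
      ((num2_kappa hx c3).trans (by norm_num)))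
  have M2 : ∑ z ∈ Hᶜ, ((Bs A T z).card : ℝ) * ((Bs A T z).card - 1) ≤ 412 / 100 * x ^ 200 := by
    refine (sum_le_sum fun z _ => s2_ge _).trans ?_
    rw [sum_add_distrib, ← mul_sum, ← mul_sum]
    have := ex2 A Subset.rfl
    linarith
  obtain ⟨A', hA', h, hh, hb, hSg⟩ := trim hx hR0 hR hRx hk c3
  obtain ⟨A1, hA1, hh1, hLow⟩ := hS A' hA' h hh
  obtain ⟨j1, j2⟩ := floor_num hx
  have hB : ∀ z, ∃ B ⊆ Bs A' T z, B.card = min (Bs A' T z).card ⌊x ^ 38⌋₊ := fun z =>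
    exists_subset_card_eq (min_le_left _ _)
  choose B hB1 hB2 using hB
  have st3 := step_U3 (H := H) (ρ := (x ^ 49)⁻¹) (j := x ^ 38) (by positivity) (ρ1 49) h3 hA' hB1
    (fun z => le_trans (by rw [hB2]; exact_mod_cast min_le_right _ _)
      (Nat.floor_le (by positivity)))
    (pow_le_pow_right₀ x1 (by norm_num)) hR
    (by have := pow_gap hx (show 1 < 38 by norm_num); linarith) hY hT hSg
    ((num3_kappa hx).trans (by norm_num))
  rw [hk] at st3
  have s3b := num3 hx (Nat.cast_nonneg _) c3 hL (sum_nonneg fun z _ => s3_nonneg _) p1 hH M2 st3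
  have hR1 : Rep A1 (4 + 6 * L) := fun d hd => le_trans (by
    exact_mod_cast card_le_card fun a ha => mem_filter.mpr
      ⟨hA' (hA1 (mem_filter.mp ha).1), hA' (hA1 (mem_filter.mp ha).2)⟩) (hR d hd)
  have stL := step_L (T := T) (H := H) (ρ := (x ^ 52)⁻¹) (by positivity) (ρ1 52) hR0 hLow hR1
  have hle : 2 * h ≤ A.card := hh ▸ card_le_card hA'
  have b1 : ((A.card - 2 * h : ℕ) : ℝ) ≤ 19 * x ^ 93 := by
    rw [Nat.cast_sub hle]
    push_cast
    linarith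
  have W := numL hx (by linarith) c3 hL (by exact_mod_cast Fintype.card_pos) p2 hH
    (Nat.cast_nonneg _) b1 (by rw [hh1]; linarith) hRx stL
  have fin : ∀ z ∈ Hᶜ, 4 * (((Bs A1 T z).card : ℝ) * (Bs (A' \ A1) T z).card) ≤
      30 * (((Bs A' T z).card - 1 : ℕ) : ℝ) + 3 / 100 * s3 (B z).card := by
    intro z hz
    have e : (Bs A' T z).card = (Bs A1 T z).card + (Bs (A' \ A1) T z).card := by
      rw [← card_union_of_disjoint]
      · congr 1
        ext t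
        simp only [mem_union, mem_Bs, mem_sdiff]
        have := @hA1 (z - t)
        tauto
      · rw [disjoint_left]
        intro t a b
        exact (mem_sdiff.mp (mem_Bs.mp b).2).2 (mem_Bs.mp a).2
    rw [hB2, e]
    refine pointwise_bound (Θ := x ^ 54) ?_ j1 j2
    rw [← e]
    refine le_trans ?_ (hH' z (mem_compl.mp hz))
    have : Bs A' T z ⊆ Bs A T z := fun t ht =>
      mem_Bs.mpr ⟨(mem_Bs.mp ht).1, hA' (mem_Bs.mp ht).2⟩
    exact_mod_cast card_le_card this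
  have fin2 := sum_le_sum fin
  rw [sum_add_distrib, ← mul_sum, ← mul_sum, ← mul_sum] at fin2
  have := ex2 A' hA'
  have : 0 < x ^ 200 := by positivity
  linarith

end Pool.Agent.P.MP_cb22e8_co
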