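import Pool.Agent.P.MP_cb22e8_co.Prob

/-!
The limit statement.
-/

namespace Pool.Agent.P.MP_cb22e8_co

open Finset Filter Topology

theorem tendsto_scale : Tendsto (fun n : ℕ => ((Nat.sqrt n : ℕ) : ℝ) ^ (1 / 100 : ℝ)) atTop atTop := by
  refine (tendsto_rpow_atTop (by norm_num)).comp (tendsto_natCast_atTop_atTop.comp ?_)
  refine tendsto_atTop.mpr fun b => eventually_atTop.mpr ⟨b * b, fun n hn => ?_⟩
  exact Nat.le_sqrt.mpr hn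

theorem bound_at (n : ℕ) {x : ℝ} (hx : 10 ^ 6 ≤ x) (hk : ((Nat.sqrt n : ℕ) : ℝ) = x ^ 100)
    (hε : 4 * ((⌈x⌉₊ : ℝ) ^ 200 * (2 / 3 : ℝ) ^ ⌈x⌉₊) ≤ 1) :
    ({A : Finset (ZMod n) | A.card = Nat.sqrt n ∧ ∃ T : Finset (ZMod n),
      T.card ≤ ⌊(101 / 100 : ℝ) * Nat.sqrt n⌋₊ ∧ ∀ z, ∃ a ∈ A, ∃ t ∈ T, a + t = z}.ncard : ℝ) /
        n.choose (Nat.sqrt n) ≤ 54 * (4 * ((⌈x⌉₊ : ℝ) ^ 200 * (2 / 3 : ℝ) ^ ⌈x⌉₊)) := by
  have x0 : (0 : ℝ) < x := lt_of_lt_of_le (by norm_num) hx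
  have x1 : (1 : ℝ) ≤ x := le_trans (by norm_num) hx
  have k1 : (1 : ℝ) ≤ (Nat.sqrt n : ℕ) := hk ▸ one_le_pow₀ x1
  have n0 : n ≠ 0 := by
    rintro rfl
    norm_num at k1
  have : NeZero n := ⟨n0⟩
  let _ : LinearOrder (ZMod n) := LinearOrder.lift' ZMod.val (ZMod.val_injective n)
  have h1 : ((n : ℝ) + 1) * (2 / 3 : ℝ) ^ ⌈x⌉₊ ≤ 4 * ((⌈x⌉₊ : ℝ) ^ 200 * (2 / 3 : ℝ) ^ ⌈x⌉₊) := by
    rw [← mul_assoc]
    gcongr
    have a1 : (n : ℝ) + 1 ≤ ((Nat.sqrt n : ℕ) + 1) ^ 2 := by exact_mod_cast Nat.lt_succ_sqrt' n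
    have a2 : x ^ 200 ≤ (⌈x⌉₊ : ℝ) ^ 200 := pow_le_pow_left₀ x0.le (Nat.le_ceil x) _
    have a3 : x ^ 200 = ((Nat.sqrt n : ℕ) : ℝ) ^ 2 := by rw [hk]; ring
    nlinarith
  have h2 : (0 : ℝ) < n.choose (Nat.sqrt n) := by exact_mod_cast Nat.choose_pos (Nat.sqrt_le_self n)
  rw [div_le_iff₀ h2, Set.ncard_eq_toFinset_card _ (Set.toFinite _)]
  refine (card_cover_le (G := ZMod n) (k := Nat.sqrt n) (L := ⌈x⌉₊) hx hk ?_ ?_ ?_ ?_ ?_ _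
    ?_).trans ?_
  · rw [ZMod.card]; exact Nat.sqrt_le' n
  · rw [ZMod.card]; exact (Nat.lt_succ_sqrt' n).le
  · exact Nat.ceil_pos.mpr x0
  · linarith [Nat.ceil_lt_add_one x0.le]
  · rw [ZMod.card]
    have : (0 : ℝ) ≤ (2 / 3 : ℝ) ^ ⌈x⌉₊ := by positivity
    nlinarith
  · intro A hA
    rw [Set.Finite.mem_toFinset] at hA
    obtain ⟨a1, T, a2, a3⟩ := hA
    refine ⟨a1, T, ?_, a3⟩
    have a4 : (T.card : ℝ) ≤ (101 / 100 : ℝ) * Nat.sqrt n :=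
      le_trans (by exact_mod_cast a2) (Nat.floor_le (by positivity))
    have a5 : (100 : ℝ) * T.card ≤ 101 * Nat.sqrt n := by linarith
    exact_mod_cast a5
  · rw [ZMod.card]
    gcongr

theorem main_theorem : Tendsto (fun n : ℕ =>
    ({A : Finset (ZMod n) | A.card = Nat.sqrt n ∧ ∃ T : Finset (ZMod n),
      T.card ≤ ⌊(101 / 100 : ℝ) * Nat.sqrt n⌋₊ ∧ ∀ z, ∃ a ∈ A, ∃ t ∈ T, a + t = z}.ncard : ℝ) /
        n.choose (Nat.sqrt n)) atTop (𝓝 0) := by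
  have h1 : Tendsto (fun L : ℕ => 4 * ((L : ℝ) ^ 200 * (2 / 3 : ℝ) ^ L)) atTop (𝓝 0) := by
    simpa using (tendsto_pow_const_mul_const_pow_of_abs_lt_one 200
      (r := 2 / 3) (by rw [abs_of_pos] <;> norm_num)).const_mul 4
  have h2 := h1.comp (tendsto_nat_ceil_atTop.comp tendsto_scale)
  have h3 := h2.const_mul 54
  rw [mul_zero] at h3
  refine squeeze_zero' (Eventually.of_forall fun n => by positivity) ?_ h3
  filter_upwards [tendsto_scale.eventually_ge_atTop (10 ^ 6),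
    h2.eventually_le_const zero_lt_one] with n a1 a2
  refine bound_at n a1 ?_ a2
  rw [← Real.rpow_natCast, ← Real.rpow_mul (Nat.cast_nonneg _)]
  norm_num

end Pool.Agent.P.MP_cb22e8_co
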