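import Pool.Agent.P.MP_cb22e8_co.Det

/-!
Union bounds: almost every set has the three tail properties.
-/

namespace Pool.Agent.P.MP_cb22e8_co

open Finset

variable {G : Type*} [Fintype G] [AddCommGroup G] [LinearOrder G]

omit [AddCommGroup G] [LinearOrder G] in
theorem sum_weight {L : ℕ} (hε : (2 / 3 : ℝ) ^ L * Fintype.card G ≤ 1) :
    ∑ S : Finset G, (2 / 3 : ℝ) ^ (L * S.card) ≤ 3 := by
  have h := Fintype.sum_pow_mul_eq_add_pow G ((2 / 3 : ℝ) ^ L) 1
  simp only [one_pow, mul_one, ← pow_mul] at h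
  rw [h]
  calc ((2 / 3 : ℝ) ^ L + 1) ^ Fintype.card G ≤ Real.exp ((2 / 3 : ℝ) ^ L) ^ Fintype.card G := by
        gcongr
        exact Real.add_one_le_exp _
    _ = Real.exp ((2 / 3 : ℝ) ^ L * Fintype.card G) := by rw [← Real.exp_nat_mul, mul_comm]
    _ ≤ Real.exp 1 := Real.exp_le_exp.mpr hε
    _ ≤ 3 := Real.exp_one_lt_d9.le.trans (by norm_num)

omit [AddCommGroup G] [LinearOrder G] in
theorem sum_weight2 {L : ℕ} (hε : (2 / 3 : ℝ) ^ L * Fintype.card G ≤ 1) (c : ℕ) :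
    ∑ ω : Finset G × Finset G, (2 / 3 : ℝ) ^ (L * (c + ω.1.card + ω.2.card)) ≤
      9 * (2 / 3 : ℝ) ^ (L * c) := by
  have h := sum_weight hε
  have h0 : 0 ≤ ∑ S : Finset G, (2 / 3 : ℝ) ^ (L * S.card) := by positivity
  simp only [mul_add, pow_add, Fintype.sum_prod_type, ← mul_sum, ← sum_mul]
  calc _ ≤ (2 / 3 : ℝ) ^ (L * c) * 3 * 3 := by gcongr
    _ = _ := by ring

omit [AddCommGroup G] [LinearOrder G] in
theorem sum_weight3 {L : ℕ} (hε : (2 / 3 : ℝ) ^ L * Fintype.card G ≤ 1) :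
    ∑ ω : Finset G × Finset G × Finset G,
      (2 / 3 : ℝ) ^ (L * (1 + ω.1.card + ω.2.1.card + ω.2.2.card)) ≤ 27 * (2 / 3 : ℝ) ^ L := by
  have h := sum_weight hε
  have h0 : 0 ≤ ∑ S : Finset G, (2 / 3 : ℝ) ^ (L * S.card) := by positivity
  simp only [mul_add, pow_add, Fintype.sum_prod_type, ← mul_sum, ← sum_mul, mul_one]
  calc _ ≤ (2 / 3 : ℝ) ^ L * 3 * 3 * 3 := by gcongr
    _ = _ := by ring

theorem card_le_sum_of_cover {α Ω : Type*} [Fintype Ω] (S : Finset α) (F : Ω → Finset α)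
    (f : Ω → ℝ) (h : ∀ a ∈ S, ∃ ω, a ∈ F ω) (hf : ∀ ω, ((F ω).card : ℝ) ≤ f ω) :
    (S.card : ℝ) ≤ ∑ ω, f ω := by
  classical
  have h1 : S ⊆ univ.biUnion F := fun a ha => by simpa using h a ha
  have h2 : (S.card : ℝ) ≤ ∑ ω, ((F ω).card : ℝ) := by
    exact_mod_cast (card_le_card h1).trans card_biUnion_le
  exact h2.trans (sum_le_sum fun ω _ => hf ω)

open Classical in
theorem bad_U2 {k L : ℕ} (hk : 0 < k) (hL : 0 < L) (hp : 4 * k ≤ Fintype.card G)
    (hε : (2 / 3 : ℝ) ^ L * Fintype.card G ≤ 1) :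
    (((powersetCard k (univ : Finset G)).filter fun A => ¬ U2 A L).card : ℝ) ≤
      (Fintype.card G + 1) * (Fintype.card G).choose k * (9 * (2 / 3 : ℝ) ^ L) := by
  refine (card_le_sum_of_cover _ _ _ ?_ fun ω : Finset G × Finset G =>
    upper_tail (Z2 ω.1 ω.2) (Z2_mono _ _) k (L * (1 + ω.1.card + ω.2.card)) hk
      (by positivity) hp).trans ?_
  · intro A hA
    obtain ⟨h1, h2⟩ := mem_filter.mp hA
    simp only [U2, not_forall, not_le] at h2
    obtain ⟨S1, S3, h2⟩ := h2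
    refine ⟨(S1, S3), mem_filter.mpr ⟨h1, ?_⟩⟩
    rw [(mem_powersetCard.mp h1).2] at h2
    push_cast
    exact h2.le
  · rw [← mul_sum]
    have := sum_weight2 hε 1
    rw [mul_one] at this
    gcongr

open Classical in
theorem bad_U3 {k L : ℕ} (hk : 0 < k) (hL : 0 < L) (hp : 4 * k ≤ Fintype.card G)
    (hε : (2 / 3 : ℝ) ^ L * Fintype.card G ≤ 1) :
    (((powersetCard k (univ : Finset G)).filter fun A => ¬ U3 A L).card : ℝ) ≤
      (Fintype.card G + 1) * (Fintype.card G).choose k * (27 * (2 / 3 : ℝ) ^ L) := by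
  refine (card_le_sum_of_cover _ _ _ ?_ fun ω : Finset G × Finset G × Finset G =>
    upper_tail (Z3 ω.1 ω.2.1 ω.2.2) (Z3_mono _ _ _) k
      (L * (1 + ω.1.card + ω.2.1.card + ω.2.2.card)) hk (by positivity) hp).trans ?_
  · intro A hA
    obtain ⟨h1, h2⟩ := mem_filter.mp hA
    simp only [U3, not_forall, not_le] at h2
    obtain ⟨S1, S2, S3, h2⟩ := h2
    refine ⟨(S1, S2, S3), mem_filter.mpr ⟨h1, ?_⟩⟩
    rw [(mem_powersetCard.mp h1).2] at h2
    push_cast
    exact h2.le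
  · rw [← mul_sum]
    have := sum_weight3 hε
    gcongr

theorem choose_le_choose_of_le {p j k : ℕ} (hjk : j ≤ k) (hk : 2 * k ≤ p) :
    p.choose j ≤ p.choose k := by
  induction k, hjk using Nat.le_induction with
  | base => exact le_rfl
  | succ k _ ih => exact (ih (by omega)).trans (Nat.choose_le_succ_of_lt_half_left (by omega))

omit [AddCommGroup G] in
theorem card_supset_le' (P : Finset G → Prop) (k j : ℕ) {u : ℝ} (S : Finset (Finset G))
    (hS : ∀ A ∈ S, A.card = k ∧ ∃ B ⊆ A, B.card = j ∧ P B)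
    (hu : ∀ S' : Finset (Finset G), (∀ B ∈ S', B.card = j ∧ P B) → (S'.card : ℝ) ≤ u) :
    (S.card : ℝ) ≤ u * (Fintype.card G : ℝ) ^ (k - j) := by
  classical
  have h1 := (card_le_card fun A hA => mem_filter.mpr
    ⟨mem_powersetCard.mpr ⟨subset_univ _, (hS A hA).1⟩, (hS A hA).2⟩).trans (card_supset_le P k j)
  have h2 := (Nat.cast_le (α := ℝ)).mpr h1
  rw [Nat.cast_mul, Nat.cast_pow] at h2
  refine h2.trans (mul_le_mul_of_nonneg_right (hu _ fun B hB => ?_) (by positivity))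
  exact ⟨(mem_powersetCard.mp (mem_filter.mp hB).1).2, (mem_filter.mp hB).2⟩

/-- failure of every split -/
def NoSplit (L b h : ℕ) (A : Finset G) : Prop := ∀ B ⊆ A, B.card = h → ¬ Low B (A \ B) L b

theorem card_noSplit {L : ℕ} (b h : ℕ) (hp : 4 * h * h ≤ Fintype.card G)
    (hε : (2 / 3 : ℝ) ^ L * Fintype.card G ≤ 1) (S : Finset (Finset G))
    (hS : ∀ A ∈ S, A.card = 2 * h ∧ NoSplit L b h A) :
    (S.card : ℝ) ≤ 2 * (Fintype.card G).choose (2 * h) * (9 * (2 / 3 : ℝ) ^ (L * (1 + b))) := by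
  have h2 := split_tail (fun ω : Finset G × Finset G => Z2 ω.1 ω.2)
    (fun ω => L * (1 + b + ω.1.card + ω.2.card)) h Fintype.card_pos hp
  have h4 := sum_weight2 hε (1 + b)
  refine le_trans (Nat.cast_le.mpr (card_le_card fun A hA => mem_filter.mpr
    ⟨mem_powersetCard.mpr ⟨subset_univ _, (hS A hA).1⟩, fun B hB hBh => ?_⟩)) (h2.trans ?_)
  · have h5 := (hS A hA).2 B hB hBh
    simp only [Low, not_forall, not_le] at h5
    obtain ⟨S1, S2, h5⟩ := h5
    refine ⟨(S1, S2), ?_⟩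
    rw [hBh] at h5
    push_cast
    exact h5
  · gcongr

open Classical in
theorem bad_Spl {k L : ℕ} (hp : 4 * k ≤ Fintype.card G) (hp2 : k ^ 2 ≤ Fintype.card G)
    (hε : (2 / 3 : ℝ) ^ L * Fintype.card G ≤ 1) :
    (((powersetCard k (univ : Finset G)).filter fun A => ¬ Spl A L).card : ℝ) ≤
      (Fintype.card G + 1) * (Fintype.card G).choose k * (18 * (2 / 3 : ℝ) ^ L) := by
  have key : ∀ h : Fin (k / 2 + 1), (((powersetCard k (univ : Finset G)).filter fun A =>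
      ∃ B ⊆ A, B.card = 2 * (h : ℕ) ∧ NoSplit L (k - 2 * h) h B).card : ℝ) ≤
      (Fintype.card G).choose k * (18 * (2 / 3 : ℝ) ^ L) := by
    intro h
    have h1 : 2 * (h : ℕ) ≤ k := by have := h.2; omega
    have h5 : ((Fintype.card G).choose (2 * h) : ℝ) ≤ (Fintype.card G).choose k := by
      exact_mod_cast choose_le_choose_of_le h1 (by omega)
    have h7 : ((2 / 3 : ℝ) ^ L * Fintype.card G) ^ (k - 2 * h) ≤ 1 :=
      pow_le_one₀ (by positivity) hε
    refine (card_supset_le' (NoSplit L (k - 2 * h) h) k (2 * h) _ (fun A hA =>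
      ⟨(mem_powersetCard.mp (mem_filter.mp hA).1).2, (mem_filter.mp hA).2⟩)
      (card_noSplit (k - 2 * h) h (by nlinarith) hε)).trans ?_
    calc _ ≤ 2 * (Fintype.card G).choose k * (9 * (2 / 3 : ℝ) ^ (L * (1 + (k - 2 * h)))) *
          (Fintype.card G : ℝ) ^ (k - 2 * h) := by gcongr
      _ = (Fintype.card G).choose k * (18 * (2 / 3 : ℝ) ^ L) *
          ((2 / 3 : ℝ) ^ L * Fintype.card G) ^ (k - 2 * h) := by
          rw [mul_add, pow_add, mul_pow, ← pow_mul, mul_one]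
          ring
      _ ≤ _ := mul_le_of_le_one_right (by positivity) h7
  refine (card_le_sum_of_cover _ _ _ ?_ key).trans ?_
  · intro A hA
    obtain ⟨h1, h2⟩ := mem_filter.mp hA
    simp only [Spl, not_forall, not_exists, not_and] at h2
    obtain ⟨A', hA', h, hh, h2⟩ := h2
    have h3 := (mem_powersetCard.mp h1).2
    have h4 := card_le_card hA'
    exact ⟨⟨h, by omega⟩, mem_filter.mpr ⟨h1, A', hA', hh, fun B hB hBh => h3 ▸ h2 B hB hBh⟩⟩
  · rw [sum_const, card_univ, Fintype.card_fin, nsmul_eq_mul, mul_assoc]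
    gcongr
    exact_mod_cast (by omega : k / 2 + 1 ≤ Fintype.card G + 1)

open Classical in
theorem card_cover_le {k L : ℕ} {x : ℝ} (hx : 10 ^ 6 ≤ x) (hk : (k : ℝ) = x ^ 100)
    (hp1 : k ^ 2 ≤ Fintype.card G) (hp2 : Fintype.card G ≤ (k + 1) ^ 2) (hL0 : 0 < L)
    (hL : (L : ℝ) ≤ 2 * x) (hε : (2 / 3 : ℝ) ^ L * Fintype.card G ≤ 1) (S : Finset (Finset G))
    (hS : ∀ A ∈ S, A.card = k ∧ ∃ T : Finset G, 100 * T.card ≤ 101 * k ∧
      ∀ z, ∃ a ∈ A, ∃ t ∈ T, a + t = z) :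
    (S.card : ℝ) ≤ 54 * ((Fintype.card G + 1) * (2 / 3 : ℝ) ^ L) * (Fintype.card G).choose k := by
  have k4 : 4 ≤ k := by
    have := pow_gap hx (show 0 < 100 by norm_num)
    have : (4 : ℝ) ≤ k := by linarith
    exact_mod_cast this
  have hp : 4 * k ≤ Fintype.card G := by nlinarith
  have b1 := bad_U2 (by omega) hL0 hp hε
  have b2 := bad_U3 (by omega) hL0 hp hε
  have b3 := bad_Spl hp hp1 hε
  have h1 : S ⊆ ((powersetCard k (univ : Finset G)).filter fun A => ¬ U2 A L) ∪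
      (((powersetCard k (univ : Finset G)).filter fun A => ¬ U3 A L) ∪
        ((powersetCard k (univ : Finset G)).filter fun A => ¬ Spl A L)) := by
    intro A hA
    obtain ⟨a1, T, a2, a3⟩ := hS A hA
    have a4 : A ∈ powersetCard k (univ : Finset G) := mem_powersetCard.mpr ⟨subset_univ _, a1⟩
    by_contra hn
    simp only [mem_union, mem_filter, a4, true_and, not_or, not_not] at hn
    subst a1
    refine no_cover hx hk hp1 hp2 hL hn.1 hn.2.1 hn.2.2 a2 fun z => ?_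
    obtain ⟨a, ha, t, ht, rfl⟩ := a3 z
    exact ⟨t, mem_Bs.mpr ⟨ht, by simpa using ha⟩⟩
  have h2 := (card_le_card h1).trans ((card_union_le _ _).trans
    (Nat.add_le_add_left (card_union_le _ _) _))
  have h3 := (Nat.cast_le (α := ℝ)).mpr h2
  push_cast at h3
  linarith

end Pool.Agent.P.MP_cb22e8_co
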