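import Pool.Agent.P.MP_cb22e8_co.Steps

/-!
The averaging step for triples.
-/

namespace Pool.Agent.P.MP_cb22e8_co

open Finset

variable {G : Type*} [Fintype G] [AddCommGroup G] [LinearOrder G]

omit [AddCommGroup G] in
theorem Ex3_one (ρ : ℝ) : Ex (pw (bw ρ) (pw (bw ρ) (bw ρ)))
    (fun _ : Finset G × Finset G × Finset G => (1 : ℝ)) = 1 := by
  rw [Ex_fst (bw ρ) (fun _ => 1) _ (Ex2_one ρ), Ex_one]

/-- the admissible triples at `a` -/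
def Tr (T H Y : Finset G) (B : G → Finset G) (a : G) : Finset (G × G × G) :=
  (T ×ˢ T ×ˢ T).filter fun τ => a + τ.1 ∉ H ∧ τ.1 ∈ B (a + τ.1) ∧
    τ.2 ∈ (Us B Y (a + τ.1) τ.1).offDiag

omit [Fintype G] in
theorem mem_Tr {T H Y : Finset G} {B : G → Finset G} {a : G} {τ : G × G × G}
    (h : τ ∈ Tr T H Y B a) : τ.1 ∈ T ∧ τ.2.1 ∈ B (a + τ.1) ∧ τ.2.2 ∈ B (a + τ.1) ∧
      a + τ.1 - τ.2.1 < a ∧ a + τ.1 - τ.2.2 < a ∧ τ.2.1 - a ∉ Y ∧ τ.2.2 - a ∉ Y ∧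
      τ.2.1 ≠ τ.2.2 := by
  obtain ⟨h1, -, -, h4⟩ := mem_filter.mp h
  obtain ⟨h5, h6, h7⟩ := mem_offDiag.mp h4
  rw [mem_Us, add_sub_cancel_right] at h5 h6
  exact ⟨(mem_product.mp h1).1, h5.1, h6.1, h5.2.1, h6.2.1, h5.2.2, h6.2.2, h7⟩

theorem card_Tr_ge {A A' T H Y : Finset G} {B : G → Finset G} (hA : A' ⊆ A)
    (hB : ∀ x, B x ⊆ Bs A' T x)
    (hT : ∀ t ∈ T, ∀ y ∈ Y, ∀ y' ∈ Y, t - y ∈ A → t - y' ∈ A → y = y') :
    ∑ x ∈ Hᶜ, s3 (B x).card ≤ ∑ a ∈ A', ((Tr T H Y B a).card : ℝ) := by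
  have e1 : ∀ a, ((Tr T H Y B a).card : ℝ) = ∑ t ∈ T, if a + t ∉ H ∧ t ∈ B (a + t) then
      ((Us B Y (a + t) t).offDiag.card : ℝ) else 0 := by
    intro a
    rw [Tr, card_filter, sum_product]
    push_cast
    refine sum_congr rfl fun t _ => ?_
    by_cases h : a + t ∉ H ∧ t ∈ B (a + t)
    · simp only [h.1, h.2, not_false_eq_true, true_and, if_true]
      rw [sum_boole, filter_mem_eq_inter, inter_eq_right.mpr]
      intro s hs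
      obtain ⟨h5, h6, -⟩ := mem_offDiag.mp hs
      exact mem_product.mpr ⟨(mem_Bs.mp (hB _ (mem_Us.mp h5).1)).1,
        (mem_Bs.mp (hB _ (mem_Us.mp h6).1)).1⟩
    · rw [if_neg h]
      exact sum_eq_zero fun s _ => if_neg fun h' => h ⟨h'.1, h'.2.1⟩
  simp only [e1]
  rw [sum_reindex A' T fun x t => if x ∉ H ∧ t ∈ B x then ((Us B Y x t).offDiag.card : ℝ) else 0]
  rw [← sum_add_sum_compl H]
  refine le_add_of_nonneg_of_le (sum_nonneg fun x _ => sum_nonneg fun t _ => ?_) ?_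
  · split_ifs
    · exact Nat.cast_nonneg _
    · exact le_rfl
  refine sum_le_sum fun x hx => ?_
  simp only [mem_compl.mp hx, not_false_eq_true, true_and]
  rw [← sum_filter, filter_mem_eq_inter, inter_eq_right.mpr (hB x)]
  simp only [offDiag_card]
  refine sum_Us_ge (T := T) (A := A') hB (fun t ht y hy y' hy' a b => hT t ht y hy y' hy' (hA a) (hA b))
    (fun u => u * u - u) ?_ x
  intro u v huv
  show u * u - u ≤ v * v - v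
  rw [← Nat.mul_sub_one, ← Nat.mul_sub_one]
  exact Nat.mul_le_mul huv (Nat.sub_le_sub_right huv 1)

omit [Fintype G] in
theorem Tr_bounds {A A' T H Y : Finset G} {B : G → Finset G} {Θ Sg j R : ℝ} (hA : A' ⊆ A)
    (hB : ∀ x, B x ⊆ Bs A' T x) (hj : ∀ x, ((B x).card : ℝ) ≤ j) (hjΘ : j ≤ Θ)
    (hR : Rep A R) (hRj : R ≤ j)
    (hY : ∀ y ∉ Y, ((T.filter fun t => t - y ∈ A).card : ℝ) ≤ Θ) {a : G}
    (hS : ∑ t ∈ T, ((Bs A T (a + t)).card : ℝ) ≤ Sg) :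
    ((Tr T H Y B a).card : ℝ) ≤ j * Sg ∧
    (∀ τ ∈ Tr T H Y B a, (((Tr T H Y B a).filter fun b => b.1 = τ.1).card : ℝ) ≤ Θ * j) ∧
    (∀ τ ∈ Tr T H Y B a, (((Tr T H Y B a).filter fun b => b.2.1 = τ.2.1).card : ℝ) ≤ Θ * j) ∧
    (∀ τ ∈ Tr T H Y B a, (((Tr T H Y B a).filter fun b => b.2.2 = τ.2.2).card : ℝ) ≤ Θ * j) ∧
    (∀ τ ∈ Tr T H Y B a,
      (((Tr T H Y B a).filter fun b => b.1 = τ.1 ∧ b.2.1 = τ.2.1).card : ℝ) ≤ j) ∧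
    (∀ τ ∈ Tr T H Y B a,
      (((Tr T H Y B a).filter fun b => b.1 = τ.1 ∧ b.2.2 = τ.2.2).card : ℝ) ≤ j) ∧
    (∀ τ ∈ Tr T H Y B a,
      (((Tr T H Y B a).filter fun b => b.2.1 = τ.2.1 ∧ b.2.2 = τ.2.2).card : ℝ) ≤ j) := by
  have hj0 : 0 ≤ j := (Nat.cast_nonneg _).trans (hj 0)
  have hBA : ∀ x s, s ∈ B x → x - s ∈ A := fun x s hs => hA (mem_Bs.mp (hB x hs)).2
  have f12 : ∀ t s, (((Tr T H Y B a).filter fun b => b.1 = t ∧ b.2.1 = s).card : ℝ) ≤ j := by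
    intro t s
    refine card_le_of_inj _ (fun b => b.2.2) (B (a + t)) ?_ ?_ (hj _)
    · intro b hb
      obtain ⟨hb', e, -⟩ := mem_filter.mp hb
      exact e ▸ (mem_Tr hb').2.2.1
    · intro b hb b' hb' e
      have k1 := (mem_filter.mp hb).2
      have k2 := (mem_filter.mp hb').2
      exact Prod.ext (k1.1.trans k2.1.symm) (Prod.ext (k1.2.trans k2.2.symm) e)
  have f13 : ∀ t s, (((Tr T H Y B a).filter fun b => b.1 = t ∧ b.2.2 = s).card : ℝ) ≤ j := by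
    intro t s
    refine card_le_of_inj _ (fun b => b.2.1) (B (a + t)) ?_ ?_ (hj _)
    · intro b hb
      obtain ⟨hb', e, -⟩ := mem_filter.mp hb
      exact e ▸ (mem_Tr hb').2.1
    · intro b hb b' hb' e
      have k1 := (mem_filter.mp hb).2
      have k2 := (mem_filter.mp hb').2
      exact Prod.ext (k1.1.trans k2.1.symm) (Prod.ext e (k1.2.trans k2.2.symm))
  have f1 : ∀ t, (((Tr T H Y B a).filter fun b => b.1 = t).card : ℝ) ≤ (B (a + t)).card * j := by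
    intro t
    refine card_le_of_fiber _ (fun b => b.2.1) (B (a + t)) hj0 ?_ le_rfl ?_
    · intro b hb
      obtain ⟨hb', e⟩ := mem_filter.mp hb
      exact e ▸ (mem_Tr hb').2.1
    · intro s _
      rw [filter_filter]
      exact f12 t s
  refine ⟨?_, fun τ _ => (f1 _).trans (by gcongr; exact (hj _).trans hjΘ), ?_, ?_,
    fun τ _ => f12 _ _, fun τ _ => f13 _ _, ?_⟩
  · rw [card_eq_sum_card_fiberwise (f := Prod.fst) (t := T) (fun τ hτ => (mem_Tr hτ).1)]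
    push_cast
    refine (sum_le_sum fun t _ => f1 t).trans ?_
    rw [← sum_mul, mul_comm]
    gcongr
    refine le_trans (sum_le_sum fun t _ => ?_) hS
    have : B (a + t) ⊆ Bs A T (a + t) := fun s hs =>
      mem_Bs.mpr ⟨(mem_Bs.mp (hB _ hs)).1, hBA _ _ hs⟩
    exact_mod_cast card_le_card this
  · intro τ hτ
    refine card_le_of_fiber _ Prod.fst _ hj0 ?_ (hY _ (mem_Tr hτ).2.2.2.2.2.1) ?_
    · intro b hb
      obtain ⟨hb', e⟩ := mem_filter.mp hb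
      refine mem_filter.mpr ⟨(mem_Tr hb').1, ?_⟩
      convert hBA _ _ (mem_Tr hb').2.1 using 1
      rw [e]; abel
    · intro t _
      rw [filter_filter]
      simp only [and_comm (b := _ = t)]
      exact f12 t _
  · intro τ hτ
    refine card_le_of_fiber _ Prod.fst _ hj0 ?_ (hY _ (mem_Tr hτ).2.2.2.2.2.2.1) ?_
    · intro b hb
      obtain ⟨hb', e⟩ := mem_filter.mp hb
      refine mem_filter.mpr ⟨(mem_Tr hb').1, ?_⟩
      convert hBA _ _ (mem_Tr hb').2.2.1 using 1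
      rw [e]; abel
    · intro t _
      rw [filter_filter]
      simp only [and_comm (b := _ = t)]
      exact f13 t _
  · intro τ hτ
    refine le_trans (hR.bound (d := τ.2.2 - τ.2.1)
      (sub_ne_zero.mpr (mem_Tr hτ).2.2.2.2.2.2.2.symm) _ (fun b => a + b.1 - τ.2.1) ?_ ?_) hRj
    · intro b hb b' hb' e
      have k1 := (mem_filter.mp hb).2
      have k2 := (mem_filter.mp hb').2
      exact Prod.ext (add_left_cancel (sub_left_injective e))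
        (Prod.ext (k1.1.trans k2.1.symm) (k1.2.trans k2.2.symm))
    · intro b hb
      obtain ⟨hb', e1, e2⟩ := mem_filter.mp hb
      refine ⟨e1 ▸ hBA _ _ (mem_Tr hb').2.1, ?_⟩
      convert hBA _ _ (mem_Tr hb').2.2.1 using 1
      rw [e2]; abel

theorem card_Z3_le (A T H S1 S2 S3 : Finset G) :
    ((Z3 (T ∩ S1) (T ∩ S2) S3 A).card : ℝ) ≤ S3.card * (H.card +
      ∑ x ∈ Hᶜ, ∑ τ ∈ (Bs A T x).offDiag, ind (τ.1 ∈ S1 ∧ τ.2 ∈ S2)) := by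
  classical
  simp only [sum_ind]
  norm_cast
  set W := H ∪ Hᶜ.biUnion fun x =>
    ((Bs A T x).offDiag.filter fun τ => τ.1 ∈ S1 ∧ τ.2 ∈ S2).image fun _ => x with hW
  have h1 : Z3 (T ∩ S1) (T ∩ S2) S3 A ⊆ (S3 ×ˢ W).image fun τ => τ.2 - τ.1 := by
    intro z hz
    simp only [Z3, mem_inter, mem_filter, mem_univ, true_and] at hz
    obtain ⟨s1, a1, s2, a2, s3, a3, a4, a5, a6⟩ := hz
    refine mem_image.mpr ⟨(s3, z + s3), mem_product.mpr ⟨a3, ?_⟩, by simp⟩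
    by_cases hx : z + s3 ∈ H
    · exact mem_union_left _ hx
    · refine mem_union_right _ (mem_biUnion.mpr ⟨z + s3, mem_compl.mpr hx,
        mem_image.mpr ⟨(s1, s2), mem_filter.mpr ⟨mem_offDiag.mpr ⟨mem_Bs.mpr ⟨a1.1, a5⟩,
          mem_Bs.mpr ⟨a2.1, a6⟩, a4⟩, a1.2, a2.2⟩, rfl⟩⟩)
  refine (card_le_card h1).trans (card_image_le.trans ?_)
  rw [card_product]
  refine Nat.mul_le_mul_left _ ((card_union_le _ _).trans (Nat.add_le_add_left ?_ _))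
  exact card_biUnion_le.trans (sum_le_sum fun x _ => card_image_le)

theorem step_U3 {A A' T H Y : Finset G} {B : G → Finset G} {L : ℕ} {ρ Θ Sg j R : ℝ}
    (h0 : 0 ≤ ρ) (h1 : ρ ≤ 1) (hU : U3 A L) (hA : A' ⊆ A)
    (hB : ∀ x, B x ⊆ Bs A' T x) (hj : ∀ x, ((B x).card : ℝ) ≤ j) (hjΘ : j ≤ Θ)
    (hR : Rep A R) (hRj : R ≤ j)
    (hY : ∀ y ∉ Y, ((T.filter fun t => t - y ∈ A).card : ℝ) ≤ Θ)
    (hT : ∀ t ∈ T, ∀ y ∈ Y, ∀ y' ∈ Y, t - y ∈ A → t - y' ∈ A → y = y')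
    (hS : ∀ a ∈ A', ∑ t ∈ T, ((Bs A T (a + t)).card : ℝ) ≤ Sg)
    (hκ : ρ ^ 3 * (j * Sg) + 3 * ρ ^ 2 * (Θ * j) + 3 * ρ * j ≤ 1) :
    ρ ^ 3 * (∑ x ∈ Hᶜ, s3 (B x).card) *
        (1 - (ρ ^ 3 * (j * Sg) + 3 * ρ ^ 2 * (Θ * j) + 3 * ρ * j)) ≤
      2 * A.card / Fintype.card G * (ρ * T.card * (H.card +
        ρ ^ 2 * ∑ x ∈ Hᶜ, ((Bs A T x).card : ℝ) * ((Bs A T x).card - 1))) +
        L * (1 + 3 * (ρ * T.card)) := by
  classical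
  have hb := bw_nonneg (G := G) h0 h1
  have hp : (0 : ℝ) < Fintype.card G := by exact_mod_cast Fintype.card_pos
  have c1 := card_Tr_ge (H := H) hA hB hT
  have c2 : ∀ a ∈ A', ρ ^ 3 * (Tr T H Y B a).card *
      (1 - (ρ ^ 3 * (j * Sg) + 3 * ρ ^ 2 * (Θ * j) + 3 * ρ * j)) ≤
      Ex (pw (bw ρ) (pw (bw ρ) (bw ρ)))
        (fun ω => ind (∃ τ ∈ Tr T H Y B a, τ.1 ∈ ω.1 ∧ τ.2.1 ∈ ω.2.1 ∧ τ.2.2 ∈ ω.2.2)) := by
    intro a ha
    obtain ⟨b0, b1, b2, b3, b4, b5, b6⟩ := Tr_bounds (H := H) hA hB hj hjΘ hR hRj hY (hS a ha)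
    exact triple_lemma h0 h1 _ b0 b1 b2 b3 b4 b5 b6
  have c3 : ∀ ω : Finset G × Finset G × Finset G,
      ∑ a ∈ A', ind (∃ τ ∈ Tr T H Y B a, τ.1 ∈ ω.1 ∧ τ.2.1 ∈ ω.2.1 ∧ τ.2.2 ∈ ω.2.2) ≤
      2 * A.card / Fintype.card G * (((T ∩ ω.1).card : ℝ) * (H.card +
        ∑ x ∈ Hᶜ, ∑ τ ∈ (Bs A T x).offDiag, ind (τ.1 ∈ ω.2.1 ∧ τ.2 ∈ ω.2.2))) +
        L * (1 + ((T ∩ ω.1).card + ((T ∩ ω.2.1).card + (T ∩ ω.2.2).card))) := by
    intro ω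
    rw [sum_ind]
    have k1 : (A'.filter fun a => ∃ τ ∈ Tr T H Y B a, τ.1 ∈ ω.1 ∧ τ.2.1 ∈ ω.2.1 ∧ τ.2.2 ∈ ω.2.2) ⊆
        gen (Z3 (T ∩ ω.2.1) (T ∩ ω.2.2) (T ∩ ω.1)) A := by
      intro a ha
      obtain ⟨ha, τ, hτ, m1, m2, m3⟩ := mem_filter.mp ha
      obtain ⟨b1, b2, b3, b4, b5, -, -, b8⟩ := mem_Tr hτ
      have d2 := mem_Bs.mp (hB _ b2)
      have d3 := mem_Bs.mp (hB _ b3)
      simp only [gen, Z3, mem_filter, mem_univ, true_and, mem_inter]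
      exact ⟨hA ha, τ.2.1, ⟨d2.1, m2⟩, τ.2.2, ⟨d3.1, m3⟩, τ.1, ⟨b1, m1⟩, b8, ⟨hA d2.2, b4⟩,
        hA d3.2, b5⟩
    refine le_trans (by exact_mod_cast card_le_card k1) ((hU _ _ _).trans ?_)
    have k2 := card_Z3_le A T H ω.2.1 ω.2.2 (T ∩ ω.1)
    refine add_le_add ?_ (le_of_eq (by ring))
    rw [mul_div_right_comm]
    gcongr
  have c4 := Ex_mono (pw_nonneg hb (pw_nonneg hb hb)) c3
  rw [Ex_sum, Ex_add, Ex_mul, Ex_mul, Ex_add, Ex_add, Ex3_one,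
    Ex_prod (bw ρ) (fun S => ((T ∩ S).card : ℝ)) (pw (bw ρ) (bw ρ)) (fun ω => (H.card : ℝ) +
        ∑ x ∈ Hᶜ, ∑ τ ∈ (Bs A T x).offDiag, ind (τ.1 ∈ ω.1 ∧ τ.2 ∈ ω.2)),
    Ex_fst (bw ρ) (fun S => ((T ∩ S).card : ℝ)) _ (Ex2_one ρ),
    Ex_snd (bw ρ) (pw (bw ρ) (bw ρ)) (fun ω => ((T ∩ ω.1).card : ℝ) + (T ∩ ω.2).card) (Ex_one ρ),
    Ex_add, Ex_add, Ex_const _ (Ex2_one ρ),
    Ex_fst (bw ρ) (fun S => ((T ∩ S).card : ℝ)) _ (Ex_one ρ),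
    Ex_snd (bw ρ) (bw ρ) (fun S => ((T ∩ S).card : ℝ)) (Ex_one ρ), Ex_card] at c4
  simp only [Ex_sum, Ex_pair] at c4
  have c8 : ∑ x ∈ Hᶜ, ∑ _τ ∈ (Bs A T x).offDiag, ρ ^ 2 =
      ρ ^ 2 * ∑ x ∈ Hᶜ, ((Bs A T x).card : ℝ) * ((Bs A T x).card - 1) := by
    rw [mul_sum]
    refine sum_congr rfl fun x _ => ?_
    rw [sum_const, offDiag_card, nsmul_eq_mul, Nat.cast_sub (Nat.le_mul_self _)]
    push_cast
    ring
  rw [c8] at c4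
  have c5 := sum_le_sum c2
  rw [← sum_mul, ← mul_sum] at c5
  calc _ ≤ ρ ^ 3 * (∑ a ∈ A', ((Tr T H Y B a).card : ℝ)) *
        (1 - (ρ ^ 3 * (j * Sg) + 3 * ρ ^ 2 * (Θ * j) + 3 * ρ * j)) := by
        gcongr
    _ ≤ _ := by linarith

end Pool.Agent.P.MP_cb22e8_co
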