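import Pool.Agent.P.MP_cb22e8_co.Basic

/-!
The three averaging steps.
-/

namespace Pool.Agent.P.MP_cb22e8_co

open Finset

theorem Ex_fst {Ω Ω' : Type*} [Fintype Ω] [Fintype Ω'] (w f : Ω → ℝ) (w' : Ω' → ℝ)
    (h : Ex w' (fun _ => 1) = 1) : Ex (pw w w') (fun ω => f ω.1) = Ex w f := by
  simpa [h] using Ex_prod w f w' (fun _ => 1)

theorem Ex_snd {Ω Ω' : Type*} [Fintype Ω] [Fintype Ω'] (w : Ω → ℝ) (w' g : Ω' → ℝ)
    (h : Ex w (fun _ => 1) = 1) : Ex (pw w w') (fun ω => g ω.2) = Ex w' g := by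
  simpa [h] using Ex_prod w (fun _ => 1) w' g

theorem Ex_const {Ω : Type*} [Fintype Ω] (w : Ω → ℝ) (h : Ex w (fun _ => 1) = 1) (c : ℝ) :
    Ex w (fun _ => c) = c := by
  simpa [h] using Ex_mul w (fun _ => 1) c

theorem card_le_of_fiber {α β : Type*} [DecidableEq β] (S : Finset α) (f : α → β) (W : Finset β)
    {u v : ℝ} (hv : 0 ≤ v) (hW : ∀ a ∈ S, f a ∈ W) (hu : (W.card : ℝ) ≤ u)
    (hf : ∀ b ∈ W, ((S.filter fun a => f a = b).card : ℝ) ≤ v) : (S.card : ℝ) ≤ u * v := by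
  rw [card_eq_sum_card_fiberwise (f := f) (t := W) (fun a ha => hW a ha)]
  push_cast
  refine (sum_le_card_nsmul _ _ _ hf).trans ?_
  rw [nsmul_eq_mul]
  gcongr

theorem card_le_of_inj {α β : Type*} (S : Finset α) (f : α → β) (W : Finset β)
    {u : ℝ} (hW : ∀ a ∈ S, f a ∈ W) (hf : Set.InjOn f S) (hu : (W.card : ℝ) ≤ u) :
    (S.card : ℝ) ≤ u :=
  le_trans (by exact_mod_cast card_le_card_of_injOn f (fun a ha => hW a ha) hf) hu

variable {G : Type*} [Fintype G] [AddCommGroup G] [LinearOrder G]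

omit [AddCommGroup G] in
theorem Ex2_one (ρ : ℝ) : Ex (pw (bw ρ) (bw ρ)) (fun _ : Finset G × Finset G => (1 : ℝ)) = 1 := by
  rw [Ex_fst (bw ρ) (fun _ => 1) _ (Ex_one ρ), Ex_one]

omit [Fintype G] in
theorem mem_Us {B : G → Finset G} {Y : Finset G} {x t s : G} :
    s ∈ Us B Y x t ↔ s ∈ B x ∧ x - s < x - t ∧ s - (x - t) ∉ Y := mem_filter

theorem step_U2 {A T H Y : Finset G} {L : ℕ} {ρ Θ : ℝ} (h0 : 0 ≤ ρ) (h1 : ρ ≤ 1) (hΘ : 0 ≤ Θ)
    (hU : U2 A L) (hk : A.card ^ 2 ≤ Fintype.card G)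
    (hH : ∀ x ∉ H, ((Bs A T x).card : ℝ) ≤ Θ)
    (hY : ∀ y ∉ Y, ((T.filter fun t => t - y ∈ A).card : ℝ) ≤ Θ)
    (hT : ∀ t ∈ T, ∀ y ∈ Y, ∀ y' ∈ Y, t - y ∈ A → t - y' ∈ A → y = y')
    (hκ : ρ ^ 2 * (T.card * Θ) + 2 * ρ * Θ ≤ 1) :
    ρ ^ 2 * (∑ x ∈ Hᶜ, s2 (Bs A T x).card) * (1 - (ρ ^ 2 * (T.card * Θ) + 2 * ρ * Θ)) ≤
      2 * (ρ * T.card) ^ 2 + L * (1 + 2 * (ρ * T.card)) := by
  classical
  set P : G → Finset (G × G) := fun a =>
    (T ×ˢ T).filter fun τ => a + τ.1 ∉ H ∧ τ.2 ∈ Us (Bs A T) Y (a + τ.1) τ.1 with hP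
  have hmem : ∀ a τ, τ ∈ P a → τ.1 ∈ T ∧ τ.2 ∈ T ∧ a + τ.1 ∉ H ∧ a + τ.1 - τ.2 ∈ A ∧
      a + τ.1 - τ.2 < a ∧ τ.2 - a ∉ Y := by
    intro a τ hτ
    simp only [hP, mem_filter, mem_product, mem_Us, mem_Bs, add_sub_cancel_right] at hτ
    exact ⟨hτ.1.1, hτ.1.2, hτ.2.1, hτ.2.2.1.2, hτ.2.2.2.1, hτ.2.2.2.2⟩
  have c1 : ∑ x ∈ Hᶜ, s2 (Bs A T x).card ≤ ∑ a ∈ A, ((P a).card : ℝ) := by
    have e1 : ∀ a, ((P a).card : ℝ) =
        ∑ t ∈ T, if a + t ∉ H then ((Us (Bs A T) Y (a + t) t).card : ℝ) else 0 := by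
      intro a
      simp only [hP, card_filter, sum_product]
      push_cast
      refine sum_congr rfl fun t _ => ?_
      by_cases h : a + t ∈ H
      · simp [h]
      · simp only [h, not_false_eq_true, true_and, if_true]
        rw [sum_boole, filter_mem_eq_inter, inter_eq_right.mpr]
        exact fun s hs => (mem_Bs.mp (mem_Us.mp hs).1).1
    simp only [e1]
    rw [sum_reindex A T fun x t => if x ∉ H then ((Us (Bs A T) Y x t).card : ℝ) else 0]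
    rw [← sum_add_sum_compl H]
    refine le_add_of_nonneg_of_le (sum_nonneg fun x _ => sum_nonneg fun t _ => by positivity) ?_
    refine sum_le_sum fun x hx => ?_
    simp only [mem_compl.mp hx, not_false_eq_true, if_true]
    exact sum_Us_ge (fun _ => Subset.rfl) hT id monotone_id x
  have c2 : ∀ a ∈ A, ρ ^ 2 * (P a).card * (1 - (ρ ^ 2 * (T.card * Θ) + 2 * ρ * Θ)) ≤
      Ex (pw (bw ρ) (bw ρ)) (fun ω => ind (∃ τ ∈ P a, τ.1 ∈ ω.1 ∧ τ.2 ∈ ω.2)) := by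
    intro a _
    have f1 : ∀ t, (((P a).filter fun b => b.1 = t).card : ℝ) ≤ Θ := by
      intro t
      by_cases h : a + t ∈ H
      · rw [filter_false_of_mem, card_empty, Nat.cast_zero]
        · exact hΘ
        · rintro b hb rfl
          exact (hmem a b hb).2.2.1 h
      · refine card_le_of_inj _ Prod.snd (Bs A T (a + t)) ?_ ?_ (hH _ h)
        · intro b hb
          obtain ⟨hb', e⟩ := mem_filter.mp hb
          subst e
          exact mem_Bs.mpr ⟨(hmem a b hb').2.1, (hmem a b hb').2.2.2.1⟩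
        · intro b hb b' hb' e
          exact Prod.ext ((mem_filter.mp hb).2.trans (mem_filter.mp hb').2.symm) e
    refine pair_lemma h0 h1 (P a) ?_ (fun τ _ => f1 τ.1) ?_
    · exact card_le_of_fiber _ Prod.fst T hΘ (fun τ hτ => (hmem a τ hτ).1) le_rfl fun t _ => f1 t
    · intro τ hτ
      refine card_le_of_inj _ Prod.fst _ ?_ ?_ (hY _ (hmem a τ hτ).2.2.2.2.2)
      · intro b hb
        obtain ⟨hb', e⟩ := mem_filter.mp hb
        refine mem_filter.mpr ⟨(hmem a b hb').1, ?_⟩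
        convert (hmem a b hb').2.2.2.1 using 1
        rw [e]; abel
      · intro b hb b' hb' e
        exact Prod.ext e ((mem_filter.mp hb).2.trans (mem_filter.mp hb').2.symm)
  have hp : (0 : ℝ) < Fintype.card G := by exact_mod_cast Fintype.card_pos
  have c3 : ∀ ω : Finset G × Finset G, ∑ a ∈ A, ind (∃ τ ∈ P a, τ.1 ∈ ω.1 ∧ τ.2 ∈ ω.2) ≤
      2 * (((T ∩ ω.1).card : ℝ) * (T ∩ ω.2).card) +
        L * (1 + ((T ∩ ω.1).card + (T ∩ ω.2).card)) := by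
    intro ω
    rw [sum_ind]
    have k1 : (A.filter fun a => ∃ τ ∈ P a, τ.1 ∈ ω.1 ∧ τ.2 ∈ ω.2) ⊆
        gen (Z2 (T ∩ ω.2) (T ∩ ω.1)) A := by
      intro a ha
      obtain ⟨ha, τ, hτ, m1, m2⟩ := mem_filter.mp ha
      obtain ⟨b1, b2, -, b4, b5, -⟩ := hmem a τ hτ
      simp only [gen, Z2, mem_filter, mem_univ, true_and, mem_inter]
      exact ⟨ha, τ.2, ⟨b2, m2⟩, τ.1, ⟨b1, m1⟩, b4, b5⟩
    refine le_trans (by exact_mod_cast card_le_card k1) ((hU _ _).trans ?_)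
    have k2 : ((Z2 (T ∩ ω.2) (T ∩ ω.1) A).card : ℝ) ≤
        A.card * ((T ∩ ω.2).card * (T ∩ ω.1).card) := by exact_mod_cast card_Z2_le _ _ _
    have k3 : (A.card : ℝ) ^ 2 ≤ Fintype.card G := by exact_mod_cast hk
    have k4 : 2 * (A.card : ℝ) * (Z2 (T ∩ ω.2) (T ∩ ω.1) A).card / Fintype.card G ≤
        2 * (((T ∩ ω.1).card : ℝ) * (T ∩ ω.2).card) := by
      rw [div_le_iff₀ hp]
      calc _ ≤ 2 * (A.card : ℝ) * (A.card * ((T ∩ ω.2).card * (T ∩ ω.1).card)) := by gcongr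
        _ = 2 * (((T ∩ ω.1).card : ℝ) * (T ∩ ω.2).card) * A.card ^ 2 := by ring
        _ ≤ _ := by gcongr
    linarith
  have c4 := Ex_mono (pw_nonneg (bw_nonneg h0 h1) (bw_nonneg h0 h1)) c3
  rw [Ex_sum, Ex_add, Ex_mul, Ex_mul, Ex_add, Ex_add, Ex2_one,
    Ex_prod (bw ρ) (fun S => ((T ∩ S).card : ℝ)) (bw ρ) (fun S => ((T ∩ S).card : ℝ)),
    Ex_fst (bw ρ) (fun S => ((T ∩ S).card : ℝ)) _ (Ex_one ρ),
    Ex_snd (bw ρ) (bw ρ) (fun S => ((T ∩ S).card : ℝ)) (Ex_one ρ), Ex_card] at c4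
  have c5 := sum_le_sum c2
  rw [← sum_mul, ← mul_sum] at c5
  calc _ ≤ ρ ^ 2 * (∑ a ∈ A, ((P a).card : ℝ)) * (1 - (ρ ^ 2 * (T.card * Θ) + 2 * ρ * Θ)) := by
        gcongr
    _ ≤ _ := by linarith

theorem step_L {A1 A2 T H : Finset G} {L b : ℕ} {ρ R : ℝ} (h0 : 0 ≤ ρ) (h1 : ρ ≤ 1) (hR0 : 0 ≤ R)
    (hL : Low A1 A2 L b) (hR : Rep A1 R) :
    2 / 3 * (A1.card / Fintype.card G) *
      (A1.card * (ρ ^ 2 * T.card ^ 2 * (1 - (ρ ^ 2 * T.card + 2 * ρ * 1))) -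
        R * (ρ * T.card * (ρ * T.card + 1)) ^ 2) ≤
      H.card * (ρ * T.card) + ρ ^ 2 * (∑ x ∈ Hᶜ, ((Bs A1 T x).card : ℝ) * (Bs A2 T x).card) +
        L * (1 + b + 2 * (ρ * T.card)) := by
  classical
  set P : G → Finset (G × G) := fun d => (T ×ˢ T).filter fun τ => τ.1 - τ.2 = d with hP
  have hp : (0 : ℝ) < Fintype.card G := by exact_mod_cast Fintype.card_pos
  have c1 : ∑ d, ((P d).card : ℝ) = T.card ^ 2 := by
    have := card_eq_sum_card_fiberwise (f := fun τ : G × G => τ.1 - τ.2) (s := T ×ˢ T) (t := univ)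
      (fun _ _ => mem_univ _)
    rw [card_product] at this
    rw [sq]
    exact_mod_cast this.symm
  have c2 : ∀ d, ρ ^ 2 * (P d).card * (1 - (ρ ^ 2 * T.card + 2 * ρ * 1)) ≤
      Ex (pw (bw ρ) (bw ρ)) (fun ω => ind (∃ τ ∈ P d, τ.1 ∈ ω.1 ∧ τ.2 ∈ ω.2)) := by
    intro d
    have hm : ∀ τ ∈ P d, τ.1 ∈ T ∧ τ.1 - τ.2 = d := fun τ hτ => by
      simp only [hP, mem_filter, mem_product] at hτ
      exact ⟨hτ.1.1, hτ.2⟩
    refine pair_lemma h0 h1 (P d) ?_ ?_ ?_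
    · refine card_le_of_inj _ Prod.fst T (fun τ hτ => (hm τ hτ).1) ?_ le_rfl
      intro τ hτ τ' hτ' e
      have := (hm τ hτ).2.trans (hm τ' hτ').2.symm
      rw [show τ.1 = τ'.1 from e] at this
      exact Prod.ext e (sub_right_injective this)
    · intro a ha
      norm_cast
      rw [card_le_one]
      intro τ hτ τ' hτ'
      rw [mem_filter] at hτ hτ'
      have e := hτ.2.trans hτ'.2.symm
      have := (hm τ hτ.1).2.trans (hm τ' hτ'.1).2.symm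
      rw [e] at this
      exact Prod.ext e (sub_right_injective this)
    · intro a ha
      norm_cast
      rw [card_le_one]
      intro τ hτ τ' hτ'
      rw [mem_filter] at hτ hτ'
      have e := hτ.2.trans hτ'.2.symm
      have := (hm τ hτ.1).2.trans (hm τ' hτ'.1).2.symm
      rw [e] at this
      exact Prod.ext (sub_left_injective this) e
  have c3 : ∀ ω : Finset G × Finset G, 2 / 3 * (A1.card / Fintype.card G) *
      (A1.card * (∑ d, ind (∃ τ ∈ P d, τ.1 ∈ ω.1 ∧ τ.2 ∈ ω.2)) -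
        R * (((T ∩ ω.1).card : ℝ) ^ 2 * ((T ∩ ω.2).card : ℝ) ^ 2)) ≤
      H.card * ((T ∩ ω.2).card : ℝ) +
        (∑ x ∈ Hᶜ, ∑ τ ∈ Bs A1 T x ×ˢ Bs A2 T x, ind (τ.1 ∈ ω.1 ∧ τ.2 ∈ ω.2)) +
        L * (1 + b + ((T ∩ ω.1).card + (T ∩ ω.2).card)) := by
    intro ω
    rw [sum_ind]
    set D := univ.filter fun d => ∃ τ ∈ P d, τ.1 ∈ ω.1 ∧ τ.2 ∈ ω.2 with hD
    have hDm : ∀ d ∈ D, ∃ s1 ∈ T ∩ ω.1, ∃ s2 ∈ T ∩ ω.2, s1 - s2 = d := by
      intro d hd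
      simp only [hD, hP, mem_filter, mem_product, mem_univ, true_and] at hd
      obtain ⟨τ, ⟨⟨a1, a2⟩, a3⟩, a4, a5⟩ := hd
      exact ⟨τ.1, mem_inter.mpr ⟨a1, a4⟩, τ.2, mem_inter.mpr ⟨a2, a5⟩, a3⟩
    have k1 : (D.card : ℝ) ≤ (T ∩ ω.1).card * (T ∩ ω.2).card := by
      norm_cast
      rw [← card_product]
      refine le_trans (card_le_card ?_) (card_image_le (f := fun τ : G × G => τ.1 - τ.2))
      intro d hd
      obtain ⟨s1, a1, s2, a2, a3⟩ := hDm d hd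
      exact mem_image.mpr ⟨(s1, s2), mem_product.mpr ⟨a1, a2⟩, a3⟩
    have k2 := card_biUnion_ge (fun d => A1.image fun a => a + d) (u := A1.card) hR0 D
      (fun d _ => by rw [card_image_of_injective _ (add_left_injective d)]) (by
        intro d _ d' _ hne
        refine hR.bound (d := d' - d) (sub_ne_zero.mpr hne.symm) _ (fun z => z - d)
          sub_left_injective.injOn ?_
        intro z hz
        simp only [mem_inter, mem_image] at hz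
        obtain ⟨⟨a, ha, rfl⟩, a', ha', e⟩ := hz
        refine ⟨by simpa using ha, ?_⟩
        convert ha' using 1
        rw [← e]; abel)
    have k3 : ((D.biUnion fun d => A1.image fun a => a + d).card : ℝ) ≤
        (Z2 (T ∩ ω.1) (T ∩ ω.2) A1).card := by
      norm_cast
      apply card_le_card
      intro z hz
      simp only [mem_biUnion, mem_image] at hz
      obtain ⟨d, hd, a, ha, rfl⟩ := hz
      obtain ⟨s1, a1, s2, a2, rfl⟩ := hDm d hd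
      simp only [Z2, mem_filter, mem_univ, true_and]
      exact ⟨s1, a1, s2, a2, by convert ha using 1; abel⟩
    have k4 : ((A2 ∩ Z2 (T ∩ ω.1) (T ∩ ω.2) A1).card : ℝ) ≤ H.card * ((T ∩ ω.2).card : ℝ) +
        (∑ x ∈ Hᶜ, ∑ τ ∈ Bs A1 T x ×ˢ Bs A2 T x, ind (τ.1 ∈ ω.1 ∧ τ.2 ∈ ω.2)) := by
      simp only [sum_ind]
      norm_cast
      have : A2 ∩ Z2 (T ∩ ω.1) (T ∩ ω.2) A1 ⊆
          ((H ×ˢ (T ∩ ω.2)).image fun τ => τ.1 - τ.2) ∪ Hᶜ.biUnion fun x =>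
            ((Bs A1 T x ×ˢ Bs A2 T x).filter fun τ => τ.1 ∈ ω.1 ∧ τ.2 ∈ ω.2).image
              fun τ => x - τ.2 := by
        intro z hz
        simp only [Z2, mem_inter, mem_filter, mem_univ, true_and] at hz
        obtain ⟨hz, s1, a1, s2, a2, a3⟩ := hz
        by_cases hx : z + s2 ∈ H
        · exact mem_union_left _ (mem_image.mpr ⟨(z + s2, s2), by simp [hx, a2], by simp⟩)
        · refine mem_union_right _ (mem_biUnion.mpr ⟨z + s2, mem_compl.mpr hx,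
            mem_image.mpr ⟨(s1, s2), ?_, by simp⟩⟩)
          simp [mem_Bs, a1, a2, a3, hz]
      refine (card_le_card this).trans ((card_union_le _ _).trans (Nat.add_le_add ?_ ?_))
      · exact card_image_le.trans (card_product _ _).le
      · exact card_biUnion_le.trans (sum_le_sum fun x _ => card_image_le)
    have k5 := hL (T ∩ ω.1) (T ∩ ω.2)
    have k6 : (D.card : ℝ) ^ 2 * R ≤ R * (((T ∩ ω.1).card : ℝ) ^ 2 * ((T ∩ ω.2).card : ℝ) ^ 2) := by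
      rw [mul_comm, ← mul_pow]
      gcongr
    calc _ ≤ 2 / 3 * (A1.card / Fintype.card G) * ((Z2 (T ∩ ω.1) (T ∩ ω.2) A1).card : ℝ) := by
          gcongr
          linarith
      _ = 2 / 3 * (A1.card * (Z2 (T ∩ ω.1) (T ∩ ω.2) A1).card / Fintype.card G : ℝ) := by ring
      _ ≤ _ := by linarith
  have c4 := Ex_mono (pw_nonneg (bw_nonneg h0 h1) (bw_nonneg h0 h1)) c3
  simp only [Ex_add, Ex_sub, Ex_mul, Ex_sum, Ex_pair, Ex_const _ (Ex2_one ρ)] at c4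
  rw [Ex_prod (bw ρ) (fun S => ((T ∩ S).card : ℝ) ^ 2) (bw ρ) (fun S => ((T ∩ S).card : ℝ) ^ 2),
    Ex_fst (bw ρ) (fun S => ((T ∩ S).card : ℝ)) _ (Ex_one ρ),
    Ex_snd (bw ρ) (bw ρ) (fun S => ((T ∩ S).card : ℝ)) (Ex_one ρ), Ex_card] at c4
  have c5 := sum_le_sum fun d (_ : d ∈ univ) => c2 d
  rw [← sum_mul, ← mul_sum, c1] at c5
  have c6 := Ex_card_sq ρ h0 T
  have c7 : 0 ≤ Ex (bw ρ) fun S => ((T ∩ S).card : ℝ) ^ 2 :=
    sum_nonneg fun S _ => mul_nonneg (bw_nonneg h0 h1 S) (sq_nonneg _)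
  have c8 : ∑ x ∈ Hᶜ, ∑ _τ ∈ Bs A1 T x ×ˢ Bs A2 T x, ρ ^ 2 =
      ρ ^ 2 * ∑ x ∈ Hᶜ, ((Bs A1 T x).card : ℝ) * (Bs A2 T x).card := by
    rw [mul_sum]
    refine sum_congr rfl fun x _ => ?_
    simp [mul_comm]
  rw [c8] at c4
  refine le_trans ?_ (c4.trans (le_of_eq (by ring)))
  gcongr
  rw [sq]
  gcongr

end Pool.Agent.P.MP_cb22e8_co
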