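import Pool.Agent.P.MP_cb22e8_co.Count

/-!
Lower tail counting.
-/

namespace Pool.Agent.P.MP_cb22e8_co

open Finset

variable {G : Type*} [DecidableEq G]

theorem esymm_le (w : G → ℝ) (hw : ∀ g, 0 ≤ w g) (s : Finset G) : ∀ h : ℕ,
    ∑ A ∈ powersetCard h s, ∏ a ∈ A, w a ≤ (∑ a ∈ s, w a) ^ h / h.factorial := by
  induction s using Finset.induction_on with
  | empty =>
    intro h
    rcases h with _ | h
    · simp
    · rw [powersetCard_eq_empty.mpr (by simp)]
      simp
  | insert x s hx ih =>
    intro h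
    rcases h with _ | h
    · simp
    have hS : 0 ≤ ∑ a ∈ s, w a := sum_nonneg fun a _ => hw a
    rw [powersetCard_succ_insert hx, sum_union, sum_image, sum_insert hx]
    · have h1 : ∑ A ∈ powersetCard h s, ∏ a ∈ insert x A, w a =
          w x * ∑ A ∈ powersetCard h s, ∏ a ∈ A, w a := by
        rw [mul_sum]
        refine sum_congr rfl fun A hA => prod_insert fun hxA => hx ?_
        exact (mem_powersetCard.mp hA).1 hxA
      rw [h1]
      have h2 := pow_add_mul_le_add_pow (a := ∑ a ∈ s, w a) (b := w x) hS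
        (by have := hw x; positivity) (h + 1)
      have h3 := ih (h + 1)
      have h4 := mul_le_mul_of_nonneg_left (ih h) (hw x)
      have h5 : (0 : ℝ) < h.factorial := by exact_mod_cast h.factorial_pos
      rw [add_comm (w x)]
      refine le_trans (add_le_add h3 h4) ?_
      rw [le_div_iff₀ (by exact_mod_cast (h + 1).factorial_pos)]
      refine le_trans (le_of_eq ?_) h2
      rw [Nat.factorial_succ]
      push_cast
      field_simp
    · intro A hA B hB hAB
      have hA' : x ∉ A := fun h => hx ((mem_powersetCard.mp hA).1 h)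
      have hB' : x ∉ B := fun h => hx ((mem_powersetCard.mp hB).1 h)
      rw [← erase_insert hA', ← erase_insert hB']
      exact congrArg (fun t => erase t x) hAB
    · rw [disjoint_left]
      intro A hA hA'
      obtain ⟨B, -, rfl⟩ := mem_image.mp hA'
      exact hx ((mem_powersetCard.mp hA).1 (mem_insert_self _ _))

variable [Fintype G]

open Classical in
theorem lower_tail (F : Finset G) (h M : ℕ) (hp : 0 < Fintype.card G) :
    (((powersetCard h (univ : Finset G)).filter fun A =>
      ((A ∩ F).card : ℝ) + M < 2 / 3 * (h * F.card / Fintype.card G)).card : ℝ) ≤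
      (2 / 3) ^ M * ((Fintype.card G : ℝ) ^ h / h.factorial) := by
  set p := Fintype.card G with hpdef
  have hp0 : (0 : ℝ) < p := by exact_mod_cast hp
  set μ : ℝ := h * F.card / p with hμ
  let w : G → ℝ := fun g => if g ∈ F then 2 / 3 else 1
  have hw : ∀ g, 0 ≤ w g := fun g => by simp only [w]; split_ifs <;> norm_num
  have h1 : ∀ A : Finset G, ∏ a ∈ A, w a = (2 / 3) ^ (A ∩ F).card := by
    intro A
    simp only [w]
    rw [prod_ite, prod_const, prod_const_one, mul_one, filter_mem_eq_inter]
  have h2 : ∑ a, w a = p - F.card / 3 := by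
    simp only [w]
    rw [sum_ite, sum_const, sum_const, filter_mem_eq_inter, univ_inter]
    have : ((univ : Finset G).filter fun x => x ∉ F) = Fᶜ := by ext; simp
    rw [this, card_compl, nsmul_eq_mul, nsmul_eq_mul, Nat.cast_sub (card_le_univ _)]
    ring
  have h3 := esymm_le w hw univ h
  rw [h2] at h3
  have h4 : ((p : ℝ) - F.card / 3) ^ h ≤ p ^ h * Real.exp (-(μ / 3)) := by
    have k1 : (p : ℝ) - F.card / 3 = p * (1 - F.card / (3 * p)) := by field_simp
    have k2 : (F.card : ℝ) ≤ p := by exact_mod_cast card_le_univ F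
    have k3 : (F.card : ℝ) / (3 * p) ≤ 1 := by
      rw [div_le_one (by positivity)]; linarith
    rw [k1, mul_pow]
    gcongr
    calc (1 - (F.card : ℝ) / (3 * p)) ^ h ≤ Real.exp (-(F.card / (3 * p))) ^ h := by
          gcongr
          linarith [Real.add_one_le_exp (-((F.card : ℝ) / (3 * p)))]
      _ = _ := by
          rw [← Real.exp_nat_mul, hμ]
          congr 1
          field_simp
  have h5 : ∀ A ∈ (powersetCard h (univ : Finset G)).filter fun A =>
      ((A ∩ F).card : ℝ) + M < 2 / 3 * μ,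
      (1 : ℝ) ≤ (∏ a ∈ A, w a) * ((2 / 3) ^ M * Real.exp (μ / 3)) := by
    intro A hA
    have k1 := (mem_filter.mp hA).2
    rw [h1, ← mul_assoc, ← pow_add]
    have k2 : Real.exp (-(1 / 2)) ≤ 2 / 3 := by
      rw [Real.exp_neg, inv_le_comm₀ (Real.exp_pos _) (by norm_num)]
      linarith [Real.add_one_le_exp (1 / 2 : ℝ)]
    calc (1 : ℝ) = Real.exp 0 := by simp
      _ ≤ Real.exp ((((A ∩ F).card + M : ℕ) : ℝ) * (-(1 / 2)) + μ / 3) := by
          apply Real.exp_le_exp.mpr
          push_cast
          linarith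
      _ = Real.exp (-(1 / 2)) ^ ((A ∩ F).card + M) * Real.exp (μ / 3) := by
          rw [Real.exp_add, Real.exp_nat_mul]
      _ ≤ _ := by gcongr
  calc _ = ∑ _A ∈ (powersetCard h (univ : Finset G)).filter fun A =>
        ((A ∩ F).card : ℝ) + M < 2 / 3 * μ, (1 : ℝ) := by simp
    _ ≤ _ := sum_le_sum h5
    _ ≤ ∑ A ∈ powersetCard h (univ : Finset G),
          (∏ a ∈ A, w a) * ((2 / 3) ^ M * Real.exp (μ / 3)) := by
        apply sum_le_sum_of_subset_of_nonneg (filter_subset _ _)
        intro A _ _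
        rw [h1]; positivity
    _ ≤ (p ^ h * Real.exp (-(μ / 3)) / h.factorial) * ((2 / 3) ^ M * Real.exp (μ / 3)) := by
        rw [← sum_mul]
        gcongr
        exact h3.trans (by gcongr)
    _ = _ := by
        rw [Real.exp_neg]
        field_simp

open Classical in
theorem split_tail {Ω : Type*} [Fintype Ω] (F : Ω → Finset G → Finset G) (M : Ω → ℕ) (h : ℕ)
    (hp0 : 0 < Fintype.card G) (hp : 4 * h * h ≤ Fintype.card G) :
    (((powersetCard (2 * h) (univ : Finset G)).filter fun A => ∀ B ⊆ A, B.card = h → ∃ ω,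
      (((A \ B) ∩ F ω B).card : ℝ) + M ω <
        2 / 3 * (h * (F ω B).card / Fintype.card G)).card : ℝ) ≤
      2 * (Fintype.card G).choose (2 * h) * ∑ ω, (2 / 3 : ℝ) ^ M ω := by
  set p := Fintype.card G with hpdef
  set S := (powersetCard (2 * h) (univ : Finset G)).filter fun A => ∀ B ⊆ A, B.card = h → ∃ ω,
      (((A \ B) ∩ F ω B).card : ℝ) + M ω < 2 / 3 * (h * (F ω B).card / p) with hS
  set Q : Ω → Finset G → Finset (Finset G) := fun ω B =>
    (powersetCard h (univ : Finset G)).filter fun C =>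
      ((C ∩ F ω B).card : ℝ) + M ω < 2 / 3 * (h * (F ω B).card / p) with hQ
  have h1 : (S.sigma fun A => powersetCard h A).card = S.card * (2 * h).choose h := by
    rw [card_sigma, ← smul_eq_mul, ← sum_const]
    refine sum_congr rfl fun A hA => ?_
    rw [card_powersetCard, (mem_powersetCard.mp (mem_filter.mp hA).1).2]
  have h2 : (S.sigma fun A => powersetCard h A).card ≤
      ((powersetCard h (univ : Finset G)).sigma fun B => univ.biUnion fun ω => Q ω B).card := by
    refine card_le_card_of_injOn (fun x => ⟨x.2, x.1 \ x.2⟩) ?_ ?_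
    · rintro ⟨A, B⟩ hx
      simp only [hS, hQ, coe_sigma, Set.mem_sigma_iff, mem_coe, mem_filter, mem_powersetCard,
        mem_biUnion] at hx ⊢
      obtain ⟨⟨⟨-, hA⟩, hz⟩, hB, hBm⟩ := hx
      obtain ⟨ω, hω⟩ := hz B hB hBm
      refine ⟨⟨subset_univ _, hBm⟩, ω, mem_univ _, ⟨subset_univ _, ?_⟩, hω⟩
      rw [card_sdiff_of_subset hB]
      omega
    · rintro ⟨A, C⟩ hx ⟨A', C'⟩ hx' h
      simp only [coe_sigma, Set.mem_sigma_iff, mem_coe, mem_powersetCard] at hx hx'
      simp only [Sigma.mk.injEq, heq_eq_eq] at h ⊢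
      obtain ⟨rfl, h3⟩ := h
      refine ⟨?_, rfl⟩
      rw [← sdiff_union_of_subset hx.2.1, h3, sdiff_union_of_subset hx'.2.1]
  have h3 : (((powersetCard h (univ : Finset G)).sigma
      fun B => univ.biUnion fun ω => Q ω B).card : ℝ) ≤
      p.choose h * ((∑ ω, (2 / 3 : ℝ) ^ M ω) * ((p : ℝ) ^ h / h.factorial)) := by
    rw [card_sigma]
    push_cast
    refine le_trans (sum_le_card_nsmul _ _ _ fun B _ => ?_) (by simp [hpdef]; rfl)
    have k1 : ((univ.biUnion fun ω => Q ω B).card : ℝ) ≤ ∑ ω, ((Q ω B).card : ℝ) := by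
      exact_mod_cast card_biUnion_le
    refine k1.trans ?_
    rw [sum_mul]
    exact sum_le_sum fun ω _ => lower_tail (F ω B) h (M ω) hp0
  have h4 : p.choose (2 * h) * (2 * h).choose h = p.choose h * (p - h).choose h := by
    have := Nat.choose_mul (n := p) (k := 2 * h) (s := h) (by omega)
    rwa [show 2 * h - h = h by omega] at this
  have hp0' : (0 : ℝ) < p := by exact_mod_cast hp0
  have h2h : 2 * h ≤ p := by nlinarith
  have h5 : (p : ℝ) ^ h / h.factorial ≤ 2 * (p - h).choose h := by
    have k1 := Nat.pow_le_choose (α := ℝ) h (p - h)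
    have k2 : (p : ℝ) ^ h ≤ 2 * ((p - h + 1 - h : ℕ) : ℝ) ^ h := by
      have k3 : (p : ℝ) * (1 + -(2 * h / p)) ≤ ((p - h + 1 - h : ℕ) : ℝ) := by
        rw [show p - h + 1 - h = p - 2 * h + 1 by omega]
        push_cast [Nat.cast_sub h2h]
        field_simp
        linarith
      have k4 : (2 * h : ℝ) / p ≤ 1 := by
        rw [div_le_one hp0']; exact_mod_cast h2h
      have k5 := one_add_mul_le_pow (a := -(2 * (h : ℝ) / p)) (by linarith) h
      have k6 : (h : ℝ) * (2 * h / p) ≤ 1 / 2 := by
        rw [← mul_div_assoc, div_le_iff₀ hp0']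
        have : (4 : ℝ) * h * h ≤ p := by exact_mod_cast hp
        linarith
      calc (p : ℝ) ^ h ≤ p ^ h * (2 * (1 + -(2 * h / p)) ^ h) := by
            apply le_mul_of_one_le_right (by positivity)
            linarith
        _ = 2 * (p * (1 + -(2 * h / p))) ^ h := by rw [mul_pow]; ring
        _ ≤ _ := by
            gcongr
            apply mul_nonneg hp0'.le
            linarith
    calc _ ≤ 2 * ((p - h + 1 - h : ℕ) : ℝ) ^ h / h.factorial := by gcongr
      _ ≤ _ := by rw [mul_div_assoc]; gcongr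
  have hc : (0 : ℝ) < (2 * h).choose h := by exact_mod_cast Nat.choose_pos (by omega)
  refine le_of_mul_le_mul_right ?_ hc
  have hE : 0 ≤ ∑ ω, (2 / 3 : ℝ) ^ M ω := by positivity
  calc (S.card : ℝ) * (2 * h).choose h = ((S.sigma fun A => powersetCard h A).card : ℝ) := by
        rw [h1]; push_cast; ring
    _ ≤ p.choose h * ((∑ ω, (2 / 3 : ℝ) ^ M ω) * ((p : ℝ) ^ h / h.factorial)) :=
        le_trans (by exact_mod_cast h2) h3
    _ ≤ p.choose h * ((∑ ω, (2 / 3 : ℝ) ^ M ω) * (2 * (p - h).choose h)) := by gcongr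
    _ = 2 * (p.choose h * (p - h).choose h : ℕ) * ∑ ω, (2 / 3 : ℝ) ^ M ω := by push_cast; ring
    _ = _ := by rw [← h4]; push_cast; ring

open Classical in
theorem card_supset_le (P : Finset G → Prop) (k j : ℕ) :
    ((powersetCard k (univ : Finset G)).filter fun A => ∃ B ⊆ A, B.card = j ∧ P B).card ≤
      ((powersetCard j (univ : Finset G)).filter P).card * Fintype.card G ^ (k - j) := by
  have h1 : ((powersetCard k (univ : Finset G)).filter fun A => ∃ B ⊆ A, B.card = j ∧ P B) ⊆
      (((powersetCard j (univ : Finset G)).filter P) ×ˢ powersetCard (k - j) univ).image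
        fun x => x.1 ∪ x.2 := by
    intro A hA
    simp only [mem_filter, mem_powersetCard] at hA
    obtain ⟨⟨-, hA⟩, B, hB, hj, hP⟩ := hA
    refine mem_image.mpr ⟨(B, A \ B), ?_, union_sdiff_of_subset hB⟩
    simp only [mem_product, mem_filter, mem_powersetCard]
    exact ⟨⟨⟨subset_univ _, hj⟩, hP⟩, subset_univ _, by rw [card_sdiff_of_subset hB, hA, hj]⟩
  refine (card_le_card h1).trans (card_image_le.trans ?_)
  rw [card_product, card_powersetCard, card_univ]
  gcongr
  exact Nat.choose_le_pow _ _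

end Pool.Agent.P.MP_cb22e8_co
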